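import Mathlib

set_option autoImplicit false

namespace Pool.Agent.MP3d411c

open AddMonoidAlgebra

/-- A truncated submultiplicative weight on the nonnegative rationals. -/
structure Weight where
  /-- the weight function -/
  w : ℚ≥0 → ℝ
  nonneg : ∀ s, 0 ≤ w s
  add_le : ∀ s t, w (s + t) ≤ w s * w t
  zero : w 0 = 1
  one_le : ∀ s, s < 1 → 1 ≤ w s
  trunc : ∀ s, 1 ≤ s → w s = 0

/-- The weighted `ℓ¹` seminorm on finitely supported functions. -/
noncomputable def wnorm (W : Weight) (x : AddMonoidAlgebra ℂ ℚ≥0) : ℝ :=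
  x.coeff.sum fun s c => ‖c‖ * W.w s

lemma wnorm_eq_sum (W : Weight) (x : AddMonoidAlgebra ℂ ℚ≥0) (U : Finset ℚ≥0)
    (hU : x.coeff.support ⊆ U) : wnorm W x = ∑ s ∈ U, ‖x.coeff s‖ * W.w s := by
  unfold wnorm
  rw [Finsupp.sum_of_support_subset _ hU]
  intro i _
  simp

lemma wnorm_nonneg (W : Weight) (x : AddMonoidAlgebra ℂ ℚ≥0) : 0 ≤ wnorm W x := by
  rw [wnorm_eq_sum W x _ subset_rfl]
  exact Finset.sum_nonneg fun s _ => mul_nonneg (norm_nonneg _) (W.nonneg s)

lemma wnorm_zero (W : Weight) : wnorm W 0 = 0 := by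
  simp [wnorm]

lemma wnorm_single (W : Weight) (s : ℚ≥0) (c : ℂ) : wnorm W (single s c) = ‖c‖ * W.w s := by
  simp [wnorm]

lemma wnorm_add_le (W : Weight) (x y : AddMonoidAlgebra ℂ ℚ≥0) :
    wnorm W (x + y) ≤ wnorm W x + wnorm W y := by
  classical
  have h1 : x.coeff.support ⊆ x.coeff.support ∪ y.coeff.support := Finset.subset_union_left
  have h2 : y.coeff.support ⊆ x.coeff.support ∪ y.coeff.support := Finset.subset_union_right
  have h3 : (x + y).coeff.support ⊆ x.coeff.support ∪ y.coeff.support := by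
    rw [coeff_add]; exact Finsupp.support_add
  rw [wnorm_eq_sum W x _ h1, wnorm_eq_sum W y _ h2, wnorm_eq_sum W (x + y) _ h3,
    ← Finset.sum_add_distrib]
  apply Finset.sum_le_sum
  intro s _
  rw [← add_mul]
  apply mul_le_mul_of_nonneg_right _ (W.nonneg s)
  rw [coeff_add]
  exact norm_add_le _ _

lemma wnorm_smul (W : Weight) (c : ℂ) (x : AddMonoidAlgebra ℂ ℚ≥0) :
    wnorm W (c • x) = ‖c‖ * wnorm W x := by
  rw [wnorm_eq_sum W x _ subset_rfl, wnorm_eq_sum W (c • x) x.coeff.support, Finset.mul_sum]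
  · apply Finset.sum_congr rfl
    intro s _
    rw [coeff_smul]
    simp [mul_assoc]
  · rw [coeff_smul]
    exact Finsupp.support_smul

lemma wnorm_neg (W : Weight) (x : AddMonoidAlgebra ℂ ℚ≥0) : wnorm W (-x) = wnorm W x := by
  have := wnorm_smul W (-1) x
  simpa using this

lemma wnorm_sum_le (W : Weight) {ι : Type*} (U : Finset ι) (f : ι → AddMonoidAlgebra ℂ ℚ≥0) :
    wnorm W (∑ i ∈ U, f i) ≤ ∑ i ∈ U, wnorm W (f i) := by
  classical
  induction U using Finset.induction_on with
  | empty => simp [wnorm_zero]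
  | insert a U ha ih =>
    rw [Finset.sum_insert ha, Finset.sum_insert ha]
    exact (wnorm_add_le W _ _).trans (by linarith)

lemma wnorm_mul_le (W : Weight) (x y : AddMonoidAlgebra ℂ ℚ≥0) :
    wnorm W (x * y) ≤ wnorm W x * wnorm W y := by
  have h : x * y = ∑ s ∈ x.coeff.support, ∑ t ∈ y.coeff.support,
      single (s + t) (x.coeff s * y.coeff t) := by
    rw [mul_def]; rfl
  rw [h, wnorm_eq_sum W x _ subset_rfl, wnorm_eq_sum W y _ subset_rfl, Finset.sum_mul_sum]
  refine (wnorm_sum_le W _ _).trans (Finset.sum_le_sum fun s _ => ?_)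
  refine (wnorm_sum_le W _ _).trans (Finset.sum_le_sum fun t _ => ?_)
  rw [wnorm_single, norm_mul]
  calc ‖x.coeff s‖ * ‖y.coeff t‖ * W.w (s + t)
      ≤ ‖x.coeff s‖ * ‖y.coeff t‖ * (W.w s * W.w t) :=
        mul_le_mul_of_nonneg_left (W.add_le s t) (by positivity)
    _ = ‖x.coeff s‖ * W.w s * (‖y.coeff t‖ * W.w t) := by ring

/-- A linear map which is bounded by the weight on monomials is bounded by the seminorm. -/
lemma norm_le_wnorm (W : Weight) {V : Type*} [SeminormedAddCommGroup V] [NormedSpace ℂ V]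
    (L : AddMonoidAlgebra ℂ ℚ≥0 →ₗ[ℂ] V) (C : ℝ)
    (hL : ∀ s, ‖L (single s 1)‖ ≤ C * W.w s)
    (x : AddMonoidAlgebra ℂ ℚ≥0) : ‖L x‖ ≤ C * wnorm W x := by
  have h : x = ∑ s ∈ x.coeff.support, x.coeff s • (single s (1 : ℂ)) := by
    conv_lhs => rw [← sum_coeff_single x]
    unfold Finsupp.sum
    apply Finset.sum_congr rfl
    intro s _
    rw [smul_single]; simp
  conv_lhs => rw [h]
  rw [map_sum, wnorm_eq_sum W x _ subset_rfl, Finset.mul_sum]
  refine (norm_sum_le _ _).trans (Finset.sum_le_sum fun s _ => ?_)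
  rw [map_smul, norm_smul]
  calc ‖x.coeff s‖ * ‖L (single s 1)‖ ≤ ‖x.coeff s‖ * (C * W.w s) :=
        mul_le_mul_of_nonneg_left (hL s) (norm_nonneg _)
    _ = C * (‖x.coeff s‖ * W.w s) := by ring

/-- The algebra of finitely supported functions, with the weighted seminorm. -/
def A0 (_W : Weight) : Type := AddMonoidAlgebra ℂ ℚ≥0

noncomputable instance (W : Weight) : CommRing (A0 W) :=
  inferInstanceAs (CommRing (AddMonoidAlgebra ℂ ℚ≥0))

noncomputable instance (W : Weight) : Algebra ℂ (A0 W) :=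
  inferInstanceAs (Algebra ℂ (AddMonoidAlgebra ℂ ℚ≥0))

/-- The weighted seminorm as a group seminorm. -/
noncomputable def agSeminorm (W : Weight) : AddGroupSeminorm (A0 W) where
  toFun := fun x => wnorm W x
  map_zero' := wnorm_zero W
  add_le' := wnorm_add_le W
  neg' := wnorm_neg W

noncomputable instance (W : Weight) : SeminormedAddCommGroup (A0 W) :=
  (agSeminorm W).toSeminormedAddCommGroup

lemma norm_A0 (W : Weight) (x : A0 W) : ‖x‖ = wnorm W x := rfl

noncomputable instance (W : Weight) : SeminormedCommRing (A0 W) :=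
  { (inferInstance : SeminormedAddCommGroup (A0 W)), (inferInstance : CommRing (A0 W)) with
    norm_mul_le := wnorm_mul_le W }

noncomputable instance (W : Weight) : NormedAlgebra ℂ (A0 W) where
  norm_smul_le c x := (wnorm_smul W c x).le

/-- The coefficients of an element of `A0 W`. -/
noncomputable def co {W : Weight} (x : A0 W) : ℚ≥0 →₀ ℂ := AddMonoidAlgebra.coeff (x : AddMonoidAlgebra ℂ ℚ≥0)

/-- Monomials. -/
noncomputable def mon (W : Weight) (s : ℚ≥0) (c : ℂ) : A0 W := AddMonoidAlgebra.single s c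

lemma co_add {W : Weight} (x y : A0 W) : co (x + y) = co x + co y := rfl

lemma co_smul {W : Weight} (c : ℂ) (x : A0 W) : co (c • x) = c • co x := rfl

lemma co_mon (W : Weight) (s : ℚ≥0) (c : ℂ) : co (mon W s c) = Finsupp.single s c := rfl

lemma mon_mul_mon (W : Weight) (s t : ℚ≥0) (c d : ℂ) :
    mon W s c * mon W t d = mon W (s + t) (c * d) := single_mul_single s t c d

lemma mon_zero_one (W : Weight) : mon W 0 1 = 1 := rfl

lemma norm_mon (W : Weight) (s : ℚ≥0) (c : ℂ) : ‖mon W s c‖ = ‖c‖ * W.w s := wnorm_single W s c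

/-- The completed algebra `ℓ¹(ℚ ∩ [0,1), w)`. -/
abbrev AA (W : Weight) : Type := UniformSpace.Completion (A0 W)


/-- The coefficient at `s`, as a linear functional on `A0 W` (zero for `s ≥ 1`). -/
noncomputable def cf0 (W : Weight) (s : ℚ≥0) : A0 W →ₗ[ℂ] ℂ where
  toFun := fun x => if s < 1 then co x s else 0
  map_add' := by
    intro x y
    split_ifs with h
    · rw [co_add]; rfl
    · simp
  map_smul' := by
    intro c x
    split_ifs with h
    · rw [co_smul]; rfl
    · simp

lemma cf0_apply_lt (W : Weight) {s : ℚ≥0} (hs : s < 1) (x : A0 W) :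
    cf0 W s x = co x s := if_pos hs

lemma cf0_apply_ge (W : Weight) {s : ℚ≥0} (hs : ¬ s < 1) (x : A0 W) :
    cf0 W s x = 0 := if_neg hs

lemma cf0_sum_le (W : Weight) (U : Finset ℚ≥0) (x : A0 W) :
    ∑ s ∈ U, ‖cf0 W s x‖ * W.w s ≤ ‖x‖ := by
  classical
  rw [norm_A0, wnorm_eq_sum W x _ (Finset.subset_union_right (s₁ := U))]
  calc ∑ s ∈ U, ‖cf0 W s x‖ * W.w s
      ≤ ∑ s ∈ U, ‖co x s‖ * W.w s := by
        apply Finset.sum_le_sum
        intro s _
        by_cases hs : s < 1
        · rw [cf0_apply_lt W hs]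
        · rw [cf0_apply_ge W hs, norm_zero, zero_mul]
          exact mul_nonneg (norm_nonneg _) (W.nonneg s)
    _ ≤ _ := by
        apply Finset.sum_le_sum_of_subset_of_nonneg Finset.subset_union_left
        intro s _ _
        exact mul_nonneg (norm_nonneg _) (W.nonneg s)

lemma norm_cf0_le (W : Weight) (s : ℚ≥0) (x : A0 W) : ‖cf0 W s x‖ ≤ 1 * ‖x‖ := by
  by_cases hs : s < 1
  · have h1 := cf0_sum_le W {s} x
    rw [Finset.sum_singleton] at h1
    have h2 := W.one_le s hs
    have h3 : ‖cf0 W s x‖ * 1 ≤ ‖cf0 W s x‖ * W.w s :=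
      mul_le_mul_of_nonneg_left h2 (norm_nonneg _)
    linarith
  · rw [cf0_apply_ge W hs, norm_zero]
    positivity

/-- The coefficient functional on the completed algebra. -/
noncomputable def cf (W : Weight) (s : ℚ≥0) : AA W →L[ℂ] ℂ :=
  ((cf0 W s).mkContinuous 1 (norm_cf0_le W s)).extend
    (UniformSpace.Completion.toComplL : A0 W →L[ℂ] AA W)

lemma cf_coe (W : Weight) (s : ℚ≥0) (x : A0 W) : cf W s (x : AA W) = cf0 W s x := by
  have h := ContinuousLinearMap.extend_eq ((cf0 W s).mkContinuous 1 (norm_cf0_le W s))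
    (e := (UniformSpace.Completion.toComplL : A0 W →L[ℂ] AA W))
    (by rw [UniformSpace.Completion.coe_toComplL]; exact UniformSpace.Completion.denseRange_coe)
    (by rw [UniformSpace.Completion.coe_toComplL]
        exact UniformSpace.Completion.isUniformInducing_coe _) x
  exact h

lemma cf_sum_le (W : Weight) (U : Finset ℚ≥0) (x : AA W) :
    ∑ s ∈ U, ‖cf W s x‖ * W.w s ≤ ‖x‖ := by
  induction x using UniformSpace.Completion.induction_on with
  | hp => apply isClosed_le <;> fun_prop
  | ih x =>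
    rw [UniformSpace.Completion.norm_coe]
    simp only [cf_coe]
    exact cf0_sum_le W U x

lemma norm_cf_le (W : Weight) (s : ℚ≥0) (x : AA W) : ‖cf W s x‖ ≤ ‖x‖ := by
  induction x using UniformSpace.Completion.induction_on with
  | hp => apply isClosed_le <;> fun_prop
  | ih x =>
    rw [UniformSpace.Completion.norm_coe, cf_coe]
    have := norm_cf0_le W s x
    linarith

/-- The coefficient functionals separate points. -/
lemma eq_zero_of_cf (W : Weight) (x : AA W) (h : ∀ s, cf W s x = 0) : x = 0 := by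
  rw [← norm_eq_zero]
  apply le_antisymm _ (norm_nonneg _)
  apply le_of_forall_pos_le_add
  intro ε hε
  obtain ⟨f, hf⟩ : ∃ f : A0 W, dist x (f : AA W) < ε / 2 :=
    (UniformSpace.Completion.denseRange_coe (α := A0 W)).exists_dist_lt x (by positivity)
  rw [dist_eq_norm] at hf
  have h1 := cf_sum_le W (co f).support (x - f)
  have h2 : ∑ s ∈ (co f).support,
      ‖cf W s (x - f)‖ * W.w s = ‖f‖ := by
    rw [norm_A0, wnorm_eq_sum W f _ subset_rfl]
    apply Finset.sum_congr rfl
    intro s _
    rw [map_sub, h s, zero_sub, norm_neg, cf_coe]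
    by_cases hs : s < 1
    · rw [cf0_apply_lt W hs]; rfl
    · rw [W.trunc s (not_lt.mp hs), mul_zero, mul_zero]
  have h3 : ‖x‖ ≤ ‖x - f‖ + ‖(f : AA W)‖ := by
    have := norm_add_le (x - f) (f : AA W)
    simpa using this
  rw [UniformSpace.Completion.norm_coe] at h3
  rw [h2] at h1
  linarith

/-- The monomial `δ_s`. -/
noncomputable def dl (W : Weight) (s : ℚ≥0) : AA W := ((mon W s 1 : A0 W) : AA W)

lemma dl_add (W : Weight) (s t : ℚ≥0) : dl W (s + t) = dl W s * dl W t := by
  unfold dl
  rw [← UniformSpace.Completion.coe_mul, mon_mul_mon, one_mul]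

lemma dl_zero (W : Weight) : dl W 0 = 1 := rfl

lemma norm_dl (W : Weight) (s : ℚ≥0) : ‖dl W s‖ = W.w s := by
  unfold dl
  rw [UniformSpace.Completion.norm_coe, norm_mon]; simp

lemma dl_eq_zero (W : Weight) {s : ℚ≥0} (hs : 1 ≤ s) : dl W s = 0 := by
  rw [← norm_eq_zero, norm_dl, W.trunc s hs]

lemma dl_pow (W : Weight) (s : ℚ≥0) (n : ℕ) : dl W s ^ n = dl W (n * s) := by
  induction n with
  | zero => simp [dl_zero]
  | succ n ih => rw [pow_succ, ih, ← dl_add]; congr 1; push_cast; ring

lemma isNilpotent_dl (W : Weight) {s : ℚ≥0} (hs : 0 < s) : IsNilpotent (dl W s) := by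
  obtain ⟨n, hn⟩ := exists_nat_ge (1 / s)
  refine ⟨n, ?_⟩
  rw [dl_pow]
  apply dl_eq_zero
  rwa [div_le_iff₀ hs] at hn

instance (W : Weight) : NormOneClass (AA W) := ⟨by rw [← dl_zero, norm_dl, W.zero]⟩

/-- Linear induction on `A0 W`. -/
lemma A0_induction {W : Weight} {P : A0 W → Prop} (x : A0 W) (h0 : P 0)
    (hadd : ∀ x y, P x → P y → P (x + y)) (hmon : ∀ s c, P (mon W s c)) : P x :=
  AddMonoidAlgebra.induction_linear (motive := P) x h0 hadd hmon

lemma cf0_mon (W : Weight) (s t : ℚ≥0) (c : ℂ) :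
    cf0 W t (mon W s c) = if t < 1 then (if s = t then c else 0) else 0 := by
  show (if t < 1 then co (mon W s c) t else 0) = _
  rw [co_mon, Finsupp.single_apply]

lemma cf0_zero_mul (W : Weight) (x y : A0 W) :
    cf0 W 0 (x * y) = cf0 W 0 x * cf0 W 0 y := by
  induction x using A0_induction with
  | h0 => simp
  | hadd x x' hx hx' => rw [add_mul, map_add, hx, hx', map_add, add_mul]
  | hmon s c =>
    induction y using A0_induction with
    | h0 => simp
    | hadd y y' hy hy' => rw [mul_add, map_add, hy, hy', map_add, mul_add]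
    | hmon t d =>
      rw [mon_mul_mon]
      simp only [cf0_mon]
      rw [if_pos one_pos]
      by_cases hs : s = 0
      · by_cases ht : t = 0
        · simp [hs, ht]
        · simp [hs, ht]
      · by_cases ht : t = 0
        · simp [hs, ht]
        · have : s + t ≠ 0 := by
            intro h
            apply hs
            have := add_eq_zero.mp h
            exact this.1
          simp [hs, ht, this]

/-- The constant coefficient is multiplicative. -/
lemma cf_zero_mul (W : Weight) (x y : AA W) : cf W 0 (x * y) = cf W 0 x * cf W 0 y := by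
  induction x, y using UniformSpace.Completion.induction_on₂ with
  | hp => apply isClosed_eq <;> fun_prop
  | ih x y =>
    rw [← UniformSpace.Completion.coe_mul, cf_coe, cf_coe, cf_coe]
    exact cf0_zero_mul W x y

lemma cf_zero_one (W : Weight) : cf W 0 (1 : AA W) = 1 := by
  rw [← dl_zero]
  unfold dl
  rw [cf_coe, cf0_mon]
  simp

/-- Elements of finite support with zero constant coefficient are nilpotent. -/
lemma isNilpotent_coe (W : Weight) (x : A0 W) :
    IsNilpotent ((x : AA W) - algebraMap ℂ (AA W) (cf0 W 0 x)) := by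
  induction x using A0_induction with
  | h0 =>
    simp only [map_zero, sub_zero]
    rw [UniformSpace.Completion.coe_zero]
    exact IsNilpotent.zero
  | hadd x y hx hy =>
    have : ((x + y : A0 W) : AA W) - algebraMap ℂ (AA W) (cf0 W 0 (x + y))
        = ((x : AA W) - algebraMap ℂ (AA W) (cf0 W 0 x))
          + ((y : AA W) - algebraMap ℂ (AA W) (cf0 W 0 y)) := by
      rw [UniformSpace.Completion.coe_add, map_add, map_add]; ring
    rw [this]
    exact (Commute.all _ _).isNilpotent_add hx hy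
  | hmon s c =>
    have h1 : ((mon W s c : A0 W) : AA W) = c • dl W s := by
      unfold dl
      rw [← UniformSpace.Completion.coe_smul]
      congr 1
      show mon W s c = c • mon W s 1
      have : c • mon W s 1 = mon W s (c • 1) := AddMonoidAlgebra.smul_single c s 1
      rw [this]; simp
    rw [h1, cf0_mon, if_pos one_pos]
    by_cases hs : s = 0
    · subst hs
      rw [if_pos rfl, dl_zero, Algebra.algebraMap_eq_smul_one, sub_self]
      exact IsNilpotent.zero
    · rw [if_neg hs, map_zero, sub_zero]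
      exact (isNilpotent_dl W (pos_iff_ne_zero.mpr hs)).smul c

/-- `AA W` is local: elements with nonzero constant coefficient are invertible. -/
lemma isUnit_of_cf_ne_zero (W : Weight) (x : AA W) (hx : cf W 0 x ≠ 0) : IsUnit x := by
  set l := cf W 0 x with hl
  have hpos : 0 < ‖l‖ := norm_pos_iff.mpr hx
  obtain ⟨f, hf⟩ : ∃ f : A0 W, dist x (f : AA W) < ‖l‖ / 2 :=
    (UniformSpace.Completion.denseRange_coe (α := A0 W)).exists_dist_lt x (by positivity)
  rw [dist_eq_norm] at hf
  have hnil := isNilpotent_coe W f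
  have h2 : ‖l - cf0 W 0 f‖ < ‖l‖ / 2 := by
    have h := norm_cf_le W 0 (x - f)
    rw [map_sub, cf_coe] at h
    exact lt_of_le_of_lt h hf
  -- `y := x - nilpotent` is close to `l`
  set n := ((f : AA W) - algebraMap ℂ (AA W) (cf0 W 0 f)) with hn
  have h3 : ‖x - n - algebraMap ℂ (AA W) l‖ < ‖l‖ := by
    have e : x - n - algebraMap ℂ (AA W) l
        = (x - f) - algebraMap ℂ (AA W) (l - cf0 W 0 f) := by
      rw [hn, map_sub]; ring
    rw [e]
    refine lt_of_le_of_lt (norm_sub_le _ _) ?_
    rw [norm_algebraMap']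
    linarith
  have h4 : IsUnit (x - n) := by
    have hu : IsUnit (algebraMap ℂ (AA W) l) := (IsUnit.mk0 l hx).map _
    have h5 : x - n = algebraMap ℂ (AA W) l *
        (1 - algebraMap ℂ (AA W) l⁻¹ * (algebraMap ℂ (AA W) l - (x - n))) := by
      have e : algebraMap ℂ (AA W) l * algebraMap ℂ (AA W) l⁻¹ = 1 := by
        rw [← map_mul, mul_inv_cancel₀ hx, map_one]
      calc x - n = algebraMap ℂ (AA W) l - (algebraMap ℂ (AA W) l - (x - n)) := by ring
        _ = algebraMap ℂ (AA W) l - (algebraMap ℂ (AA W) l * algebraMap ℂ (AA W) l⁻¹) *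
            (algebraMap ℂ (AA W) l - (x - n)) := by rw [e, one_mul]
        _ = _ := by ring
    rw [h5]
    apply hu.mul
    apply isUnit_one_sub_of_norm_lt_one
    calc ‖algebraMap ℂ (AA W) l⁻¹ * (algebraMap ℂ (AA W) l - (x - n))‖
        ≤ ‖algebraMap ℂ (AA W) l⁻¹‖ * ‖algebraMap ℂ (AA W) l - (x - n)‖ := norm_mul_le _ _
      _ = ‖l‖⁻¹ * ‖x - n - algebraMap ℂ (AA W) l‖ := by
          rw [norm_algebraMap', norm_inv, norm_sub_rev]
      _ < ‖l‖⁻¹ * ‖l‖ := by
          apply mul_lt_mul_of_pos_left h3 (by positivity)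
      _ = 1 := by field_simp
  have h6 : x = (x - n) + n := by ring
  rw [h6]
  exact hnil.isUnit_add_left_of_commute h4 (Commute.all _ _)

/-- The level `N` coefficient vector. -/
noncomputable def lvl (W : Weight) (N : ℕ) (x : AA W) : Fin N → ℂ :=
  fun j => cf W ((j : ℚ≥0) / N) x

end Pool.Agent.MP3d411c
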