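import Mathlib

set_option autoImplicit false

namespace Pool.Agent.MP3d411c

open Finset

/-- Truncated convolution on `Fin N → ℂ`: the product in `ℂ[X]/(X^N)`. -/
noncomputable def conv {N : ℕ} (x y : Fin N → ℂ) : Fin N → ℂ := fun j =>
  ∑ p ∈ Finset.univ.filter (fun p : Fin N × Fin N => (p.1 : ℕ) + (p.2 : ℕ) = (j : ℕ)), x p.1 * y p.2

/-- `m` is the order of vanishing of the truncated polynomial `x`. -/
def IsOrd {N : ℕ} (x : Fin N → ℂ) (m : ℕ) : Prop :=
  ∃ h : m < N, x ⟨m, h⟩ ≠ 0 ∧ ∀ j (hj : j < N), j < m → x ⟨j, hj⟩ = 0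

lemma exists_isOrd {N : ℕ} {x : Fin N → ℂ} (hx : x ≠ 0) : ∃ m, IsOrd x m := by
  classical
  have h : ∃ m, ∃ h : m < N, x ⟨m, h⟩ ≠ 0 := by
    by_contra hcon
    push Not at hcon
    apply hx
    funext j
    exact hcon j.1 j.2
  refine ⟨Nat.find h, ?_⟩
  obtain ⟨h1, h2⟩ := Nat.find_spec h
  refine ⟨h1, h2, fun j hj hjm => ?_⟩
  have := Nat.find_min h hjm
  push Not at this
  exact this hj

lemma IsOrd.unique {N : ℕ} {x : Fin N → ℂ} {a b : ℕ} (ha : IsOrd x a) (hb : IsOrd x b) : a = b := by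
  obtain ⟨ha1, ha2, ha3⟩ := ha
  obtain ⟨hb1, hb2, hb3⟩ := hb
  rcases lt_trichotomy a b with h | h | h
  · exact absurd (hb3 a ha1 h) ha2
  · exact h
  · exact absurd (ha3 b hb1 h) hb2

lemma conv_apply_eq_zero {N : ℕ} {x y : Fin N → ℂ} {a b : ℕ} (ha : IsOrd x a) (hb : IsOrd y b)
    (j : Fin N) (hj : (j : ℕ) < a + b) : conv x y j = 0 := by
  unfold conv
  apply Finset.sum_eq_zero
  rintro ⟨p, q⟩ hp
  simp only [Finset.mem_filter, Finset.mem_univ, true_and] at hp
  obtain ⟨ha1, ha2, ha3⟩ := ha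
  obtain ⟨hb1, hb2, hb3⟩ := hb
  by_cases hpa : (p : ℕ) < a
  · have := ha3 p.1 p.2 hpa
    simp only [Fin.eta] at this
    simp [this]
  · have hqb : (q : ℕ) < b := by omega
    have := hb3 q.1 q.2 hqb
    simp only [Fin.eta] at this
    simp [this]

lemma isOrd_conv {N : ℕ} {x y : Fin N → ℂ} {a b : ℕ} (ha : IsOrd x a) (hb : IsOrd y b)
    (hab : a + b < N) : IsOrd (conv x y) (a + b) := by
  refine ⟨hab, ?_, ?_⟩
  · have key : conv x y ⟨a + b, hab⟩ = x ⟨a, ha.1⟩ * y ⟨b, hb.1⟩ := by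
      unfold conv
      rw [Finset.sum_eq_single (⟨a, ha.1⟩, ⟨b, hb.1⟩)]
      · rintro ⟨p, q⟩ hp hne
        simp only [Finset.mem_filter, Finset.mem_univ, true_and] at hp
        obtain ⟨ha1, ha2, ha3⟩ := ha
        obtain ⟨hb1, hb2, hb3⟩ := hb
        by_cases hpa : (p : ℕ) < a
        · have := ha3 p.1 p.2 hpa
          simp only [Fin.eta] at this
          simp [this]
        · by_cases hqb : (q : ℕ) < b
          · have := hb3 q.1 q.2 hqb
            simp only [Fin.eta] at this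
            simp [this]
          · exfalso
            apply hne
            have h1 : (p : ℕ) = a := by omega
            have h2 : (q : ℕ) = b := by omega
            ext <;> simp [h1, h2]
      · intro h
        exfalso
        apply h
        simp
    rw [key]
    exact mul_ne_zero ha.2.1 hb.2.1
  · intro j hj hjab
    exact conv_apply_eq_zero ha hb ⟨j, hj⟩ hjab

lemma isOrd_of_conv_ne_zero {N : ℕ} {x y : Fin N → ℂ} {a b : ℕ} (ha : IsOrd x a) (hb : IsOrd y b)
    (h : conv x y ≠ 0) : IsOrd (conv x y) (a + b) := by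
  by_cases hab : a + b < N
  · exact isOrd_conv ha hb hab
  · exfalso
    apply h
    funext j
    apply conv_apply_eq_zero ha hb j
    have := j.2
    omega

lemma conv_zero_left {N : ℕ} (y : Fin N → ℂ) : conv (0 : Fin N → ℂ) y = 0 := by
  funext j; simp [conv]

/-- An exact discrete semigroup indexed by `[N, 4N]` in the maximal ideal of `ℂ[X]/(X^N)` vanishes
at its last index. -/
theorem exact_vanish {N : ℕ} (hN : 0 < N) (g : ℕ → Fin N → ℂ)
    (h0 : ∀ i, N ≤ i → i ≤ 4 * N → ∀ j : Fin N, (j : ℕ) = 0 → g i j = 0)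
    (hmul : ∀ i j, N ≤ i → N ≤ j → i + j ≤ 4 * N → conv (g i) (g j) = g (i + j)) :
    g (4 * N) = 0 := by
  by_contra hne
  -- all `g i` with `N ≤ i ≤ 3N` are nonzero
  have hnz : ∀ i, N ≤ i → i ≤ 3 * N → g i ≠ 0 := by
    intro i hi hi3 hzero
    apply hne
    have h1 := hmul i (4 * N - i) hi (by omega) (by omega)
    have h2 : i + (4 * N - i) = 4 * N := by omega
    rw [hzero, conv_zero_left, h2] at h1
    exact h1.symm
  have hex : ∀ i, ∃ m, N ≤ i → i ≤ 3 * N → IsOrd (g i) m := by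
    intro i
    by_cases hi : N ≤ i ∧ i ≤ 3 * N
    · obtain ⟨m, hm⟩ := exists_isOrd (hnz i hi.1 hi.2)
      exact ⟨m, fun _ _ => hm⟩
    · exact ⟨0, fun h1 h2 => absurd ⟨h1, h2⟩ hi⟩
  choose m hm using hex
  have hadd : ∀ i j, N ≤ i → N ≤ j → i + j ≤ 3 * N → m (i + j) = m i + m j := by
    intro i j hi hj hij
    have h1 := hmul i j hi hj (by omega)
    have h2 : conv (g i) (g j) ≠ 0 := by
      rw [h1]; exact hnz (i + j) (by omega) hij
    have h3 := isOrd_of_conv_ne_zero (hm i hi (by omega)) (hm j hj (by omega)) h2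
    rw [h1] at h3
    exact (hm (i + j) (by omega) hij).unique h3
  have hpos : 1 ≤ m N := by
    have h := hm N le_rfl (by omega)
    by_contra hlt
    have hm0 : m N = 0 := by omega
    rw [hm0] at h
    exact h.2.1 (h0 N le_rfl (by omega) _ rfl)
  have hlt : m N < N := (hm N le_rfl (by omega)).1
  -- linearity of `a ↦ m (N + a)` on `[0, N]`
  have hlin : ∀ a, a ≤ N → (m (N + a) : ℤ) = m N + a * ((m (N + 1) : ℤ) - m N) := by
    intro a
    induction a with
    | zero => intro _; simp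
    | succ a ih =>
      intro ha
      have ih' := ih (by omega)
      have e1 := hadd (N + a + 1) N (by omega) le_rfl (by omega)
      have e2 := hadd (N + a) (N + 1) (by omega) (by omega) (by omega)
      have e3 : N + a + 1 + N = N + a + (N + 1) := by omega
      rw [e3, e2] at e1
      have e4 : (m (N + a) : ℤ) + m (N + 1) = m (N + a + 1) + m N := by exact_mod_cast e1
      have e5 : N + (a + 1) = N + a + 1 := by omega
      rw [e5]
      push_cast
      linarith
  have h2N := hlin N le_rfl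
  have h2N' := hadd N N le_rfl le_rfl (by omega)
  have h3 : (m N : ℤ) = N * ((m (N + 1) : ℤ) - m N) := by
    have : (m (N + N) : ℤ) = m N + m N := by exact_mod_cast h2N'
    linarith
  have hdvd : (N : ℤ) ∣ (m N : ℤ) := ⟨_, h3⟩
  have hdvd' : N ∣ m N := by exact_mod_cast hdvd
  have := Nat.le_of_dvd (by omega) hdvd'
  omega

lemma tendsto_conv {N : ℕ} {α : Type*} {l : Filter α} {u v : α → Fin N → ℂ} {x y : Fin N → ℂ}
    (hu : Filter.Tendsto u l (nhds x)) (hv : Filter.Tendsto v l (nhds y)) :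
    Filter.Tendsto (fun n => conv (u n) (v n)) l (nhds (conv x y)) := by
  rw [tendsto_pi_nhds] at hu hv ⊢
  intro j
  unfold conv
  exact tendsto_finset_sum _ fun p _ => (hu p.1).mul (hv p.2)

/-- Quantitative stability of `exact_vanish`, by compactness. -/
theorem stab {N : ℕ} (hN : 0 < N) (K η : ℝ) (hη : 0 < η) :
    ∃ ε : ℝ, 0 < ε ∧ ∀ g : ℕ → Fin N → ℂ,
      (∀ i, N ≤ i → i ≤ 4 * N → ∀ j : Fin N, (j : ℕ) = 0 → g i j = 0) →
      (∀ i, N ≤ i → i ≤ 4 * N → ‖g i‖ ≤ K) →
      (∀ i j, N ≤ i → N ≤ j → i + j ≤ 4 * N → ‖conv (g i) (g j) - g (i + j)‖ ≤ ε) →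
      ‖g (4 * N)‖ ≤ η := by
  classical
  by_contra hcon
  push Not at hcon
  have hseq : ∀ n : ℕ, ∃ g : ℕ → Fin N → ℂ,
      (∀ i, N ≤ i → i ≤ 4 * N → ∀ j : Fin N, (j : ℕ) = 0 → g i j = 0) ∧
      (∀ i, N ≤ i → i ≤ 4 * N → ‖g i‖ ≤ K) ∧
      (∀ i j, N ≤ i → N ≤ j → i + j ≤ 4 * N →
        ‖conv (g i) (g j) - g (i + j)‖ ≤ 1 / ((n : ℝ) + 1)) ∧ η < ‖g (4 * N)‖ := by
    intro n
    obtain ⟨g, h1, h2, h3, h4⟩ := hcon (1 / ((n : ℝ) + 1)) (by positivity)
    exact ⟨g, h1, h2, h3, h4⟩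
  choose g hg0 hgK hgm hgη using hseq
  -- restrict to finitely many indices
  set G : ℕ → (Fin (3 * N + 1) → Fin N → ℂ) := fun n i => g n (N + i) with hG
  have hGmem : ∀ n, G n ∈ Metric.closedBall (0 : Fin (3 * N + 1) → Fin N → ℂ) K := by
    intro n
    rw [mem_closedBall_zero_iff]
    have hK : 0 ≤ K := (norm_nonneg _).trans (hgK n N le_rfl (by omega))
    rw [pi_norm_le_iff_of_nonneg hK]
    intro i
    have := i.2
    exact hgK n (N + i) (by omega) (by omega)
  obtain ⟨G', hG', φ, hφ, hlim⟩ :=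
    (isCompact_closedBall (0 : Fin (3 * N + 1) → Fin N → ℂ) K).tendsto_subseq hGmem
  obtain ⟨g', hg'⟩ : ∃ g' : ℕ → Fin N → ℂ, ∀ i (h : i - N < 3 * N + 1), g' i = G' ⟨i - N, h⟩ := by
    refine ⟨fun i => if h : i - N < 3 * N + 1 then G' ⟨i - N, h⟩ else 0, fun i h => ?_⟩
    exact dif_pos h
  have hconv : ∀ i, N ≤ i → i ≤ 4 * N →
      Filter.Tendsto (fun n => g (φ n) i) Filter.atTop (nhds (g' i)) := by
    intro i hi hi4
    have h1 : i - N < 3 * N + 1 := by omega
    have h2 := (tendsto_pi_nhds.mp hlim) ⟨i - N, h1⟩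
    rw [hg' i h1]
    refine h2.congr fun n => ?_
    have h4 : N + (i - N) = i := by omega
    show g (φ n) (N + (i - N)) = g (φ n) i
    rw [h4]
  have hz : g' (4 * N) = 0 := by
    apply exact_vanish hN g'
    · intro i hi hi4 j hj
      have h1 := (tendsto_pi_nhds.mp (hconv i hi hi4)) j
      have h2 : (fun n => g (φ n) i j) = fun _ => 0 := by
        funext n; exact hg0 (φ n) i hi hi4 j hj
      rw [h2] at h1
      exact tendsto_nhds_unique h1 tendsto_const_nhds
    · intro i j hi hj hij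
      have h1 := hconv i hi (by omega)
      have h2 := hconv j hj (by omega)
      have h3 := hconv (i + j) (by omega) hij
      have h4 : Filter.Tendsto (fun n => conv (g (φ n) i) (g (φ n) j)) Filter.atTop
          (nhds (conv (g' i) (g' j))) := tendsto_conv h1 h2
      have h5 : Filter.Tendsto (fun n => conv (g (φ n) i) (g (φ n) j) - g (φ n) (i + j))
          Filter.atTop (nhds (conv (g' i) (g' j) - g' (i + j))) := h4.sub h3
      have h6 : Filter.Tendsto (fun n => conv (g (φ n) i) (g (φ n) j) - g (φ n) (i + j))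
          Filter.atTop (nhds 0) := by
        apply squeeze_zero_norm (a := fun n => 1 / (((φ n : ℕ) : ℝ) + 1))
        · intro n; exact hgm (φ n) i j hi hj hij
        · exact tendsto_one_div_add_atTop_nhds_zero_nat.comp hφ.tendsto_atTop
      exact sub_eq_zero.mp (tendsto_nhds_unique h5 h6)
  have hlast := (hconv (4 * N) (by omega) le_rfl).norm
  rw [hz, norm_zero] at hlast
  have : η ≤ 0 := ge_of_tendsto' hlast fun n => (hgη (φ n)).le
  linarith

end Pool.Agent.MP3d411c
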