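import Mathlib

set_option autoImplicit false

namespace Pool.Agent.MP3d411c

open scoped Nat
open NormedSpace

variable {A : Type*} [NormedCommRing A] [NormedAlgebra ℂ A] [CompleteSpace A]

lemma ex_add (x y : A) : exp (x + y) = exp x * exp y :=
  exp_add_of_commute_of_mem_ball (𝕂 := ℂ) (Commute.all x y)
    ((expSeries_radius_eq_top ℂ A).symm ▸ edist_lt_top _ _)
    ((expSeries_radius_eq_top ℂ A).symm ▸ edist_lt_top _ _)

lemma ex_zero : exp (0 : A) = 1 := exp_zero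

lemma ex_nsmul (n : ℕ) (x : A) : exp (n • x) = exp x ^ n := by
  induction n with
  | zero => rw [zero_smul, pow_zero, ex_zero]
  | succ n ih => rw [succ_nsmul, pow_succ, ex_add, ih]

lemma ex_hasSum (x : A) : HasSum (fun n : ℕ => ((n ! : ℂ)⁻¹) • x ^ n) (exp x) :=
  exp_series_hasSum_exp' x

lemma norm_ex_le [NormOneClass A] (x : A) : ‖exp x‖ ≤ Real.exp ‖x‖ := by
  have h1 : HasSum (fun n : ℕ => ((n ! : ℝ)⁻¹) • ‖x‖ ^ n) (exp ‖x‖) :=
    exp_series_hasSum_exp' ‖x‖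
  rw [← Real.exp_eq_exp_ℝ] at h1
  have h2 := ex_hasSum x
  rw [← h2.tsum_eq, ← h1.tsum_eq]
  apply tsum_of_norm_bounded h1.summable.hasSum
  intro n
  rw [norm_smul, norm_inv, smul_eq_mul]
  have : ‖(n ! : ℂ)‖ = (n ! : ℝ) := by simp
  rw [this]
  apply mul_le_mul_of_nonneg_left (norm_pow_le x n) (by positivity)

lemma ex_expand (u : A) : ∃ ψ : A, exp u = 1 + u + u ^ 2 * ψ := by
  have hs : Summable (fun n : ℕ => (((n + 2)! : ℂ)⁻¹) • u ^ n) := by
    have h := norm_expSeries_summable' (𝕂 := ℂ) u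
    apply Summable.of_norm
    apply Summable.of_nonneg_of_le (fun n => norm_nonneg _) _ h
    intro n
    rw [norm_smul, norm_smul, norm_inv, norm_inv]
    apply mul_le_mul_of_nonneg_right _ (norm_nonneg _)
    have h1 : ‖((n + 2)! : ℂ)‖ = ((n + 2)! : ℝ) := by simp
    have h2 : ‖(n ! : ℂ)‖ = (n ! : ℝ) := by simp
    rw [h1, h2]
    apply inv_anti₀
    · exact_mod_cast Nat.factorial_pos n
    · exact_mod_cast Nat.factorial_le (by omega)
  refine ⟨∑' n : ℕ, (((n + 2)! : ℂ)⁻¹) • u ^ n, ?_⟩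
  have h2 := (ex_hasSum u).summable.sum_add_tsum_nat_add 2
  rw [(ex_hasSum u).tsum_eq] at h2
  rw [← h2]
  have h3 : ∑ i ∈ Finset.range 2, ((i ! : ℂ)⁻¹) • u ^ i = 1 + u := by
    simp [Finset.sum_range_succ]
  rw [h3, ← hs.tsum_mul_left]
  congr 1
  apply tsum_congr
  intro n
  rw [mul_smul_comm, ← pow_add, add_comm 2 n]

/-- Logarithms of unipotent elements. -/
lemma exists_log_one_add (n : A) (hn : IsNilpotent n) : ∃ y : A, exp y = 1 + n := by
  have key : ∀ m : ℕ, ∃ y r : A, exp y = 1 + n - n ^ (m + 1) * r := by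
    intro m
    induction m with
    | zero => exact ⟨0, 1, by rw [ex_zero]; ring⟩
    | succ m ih =>
      obtain ⟨y, r, hy⟩ := ih
      obtain ⟨ψ, hψ⟩ := ex_expand (n ^ (m + 1) * r)
      refine ⟨y + n ^ (m + 1) * r,
        -r + n ^ m * r ^ 2 - (1 + n - n ^ (m + 1) * r) * n ^ m * r ^ 2 * ψ, ?_⟩
      rw [ex_add, hy, hψ]
      ring
  obtain ⟨m, hm⟩ := hn
  obtain ⟨y, r, hy⟩ := key m
  refine ⟨y, ?_⟩
  rw [hy, pow_succ, hm]
  ring

/-- Logarithms of nonzero scalars plus nilpotents. -/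
lemma exists_log (c : ℝ) (hc : 0 < c) (n : A) (hn : IsNilpotent n) :
    ∃ y : A, exp y = algebraMap ℂ A c + n := by
  obtain ⟨y, hy⟩ := exists_log_one_add (((c⁻¹ : ℝ) : ℂ) • n) (hn.smul _)
  refine ⟨algebraMap ℂ A (Real.log c) + y, ?_⟩
  rw [ex_add, hy]
  have h1 : exp (algebraMap ℂ A (Real.log c)) = algebraMap ℂ A c := by
    rw [← algebraMap_exp_comm (𝕂 := ℂ)]
    rw [← Complex.exp_eq_exp_ℂ, ← Complex.ofReal_exp, Real.exp_log hc]
  rw [h1, mul_add, mul_one]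
  congr 1
  rw [Algebra.smul_def, ← mul_assoc, ← map_mul, ← Complex.ofReal_mul, mul_inv_cancel₀ hc.ne']
  simp

end Pool.Agent.MP3d411c
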