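import Mathlib
import Pool.Agent.MP3d411c.Algebra
import Pool.Agent.MP3d411c.Compact

set_option autoImplicit false

namespace Pool.Agent.MP3d411c

open AddMonoidAlgebra

lemma conv_add_left {N : ℕ} (u u' v : Fin N → ℂ) : conv (u + u') v = conv u v + conv u' v := by
  funext j
  simp only [conv, Pi.add_apply, add_mul, Finset.sum_add_distrib]

lemma conv_smul_left {N : ℕ} (c : ℂ) (u v : Fin N → ℂ) : conv (c • u) v = c • conv u v := by
  funext j
  simp only [conv, Pi.smul_apply, smul_eq_mul, Finset.mul_sum, mul_assoc]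

lemma conv_add_right {N : ℕ} (u v v' : Fin N → ℂ) : conv u (v + v') = conv u v + conv u v' := by
  funext j
  simp only [conv, Pi.add_apply, mul_add, Finset.sum_add_distrib]

lemma conv_smul_right {N : ℕ} (c : ℂ) (u v : Fin N → ℂ) : conv u (c • v) = c • conv u v := by
  funext j
  simp only [conv, Pi.smul_apply, smul_eq_mul, Finset.mul_sum]
  apply Finset.sum_congr rfl
  intro p _
  ring

/-- Level `N` coefficients of elements of `A0 W`. -/
noncomputable def lv0 (W : Weight) (N : ℕ) : A0 W →ₗ[ℂ] (Fin N → ℂ) :=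
  LinearMap.pi fun j => cf0 W ((j : ℚ≥0) / N)

lemma lv0_mon (W : Weight) (N : ℕ) (s : ℚ≥0) (c : ℂ) (j : Fin N) :
    lv0 W N (mon W s c) j = if s * N = (j : ℕ) then c else 0 := by
  have hN : (0 : ℚ≥0) < N := by
    have := j.2
    exact_mod_cast (by omega : 0 < N)
  have hj : ((j : ℕ) : ℚ≥0) / N < 1 := by
    rw [div_lt_one hN]
    exact_mod_cast j.2
  show cf0 W ((j : ℚ≥0) / N) (mon W s c) = _
  rw [cf0_mon, if_pos hj]
  congr 1
  rw [eq_div_iff hN.ne']

/-- The multiplicativity defect of level `N` truncation, as a linear map in the first variable. -/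
noncomputable def defectL (W : Weight) (N : ℕ) (y : A0 W) : A0 W →ₗ[ℂ] (Fin N → ℂ) where
  toFun := fun x => conv (lv0 W N x) (lv0 W N y) - lv0 W N (x * y)
  map_add' := by
    intro x x'
    rw [map_add, add_mul, map_add, conv_add_left]; abel
  map_smul' := by
    intro c x
    rw [map_smul, smul_mul_assoc, map_smul, conv_smul_left, RingHom.id_apply, smul_sub]

/-- The multiplicativity defect of level `N` truncation, as a linear map in the second variable. -/
noncomputable def defectR (W : Weight) (N : ℕ) (x : A0 W) : A0 W →ₗ[ℂ] (Fin N → ℂ) where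
  toFun := fun y => conv (lv0 W N x) (lv0 W N y) - lv0 W N (x * y)
  map_add' := by
    intro x x'
    rw [map_add, mul_add, map_add, conv_add_right]; abel
  map_smul' := by
    intro c x
    rw [map_smul, mul_smul_comm, map_smul, conv_smul_right, RingHom.id_apply, smul_sub]

lemma norm_le_norm_A0 (W : Weight) {V : Type*} [SeminormedAddCommGroup V] [NormedSpace ℂ V]
    (L : A0 W →ₗ[ℂ] V) (C : ℝ) (hL : ∀ s, ‖L (mon W s 1)‖ ≤ C * W.w s) (x : A0 W) :
    ‖L x‖ ≤ C * ‖x‖ := norm_le_wnorm W L C hL x

lemma conv_mon (W : Weight) (N : ℕ) (s t : ℚ≥0) (j : Fin N) :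
    conv (lv0 W N (mon W s 1)) (lv0 W N (mon W t 1)) j =
      ∑ p ∈ Finset.univ.filter (fun p : Fin N × Fin N => (p.1 : ℕ) + (p.2 : ℕ) = (j : ℕ)),
        (if s * N = ((p.1 : ℕ) : ℚ≥0) ∧ t * N = ((p.2 : ℕ) : ℚ≥0) then (1 : ℂ) else 0) := by
  unfold conv
  apply Finset.sum_congr rfl
  intro p _
  rw [lv0_mon, lv0_mon]
  split_ifs <;> simp_all

lemma defect_mon (W : Weight) (N : ℕ) (B : ℝ) (hB : 0 < B)
    (hBw : ∀ s : ℚ≥0, s < 1 → (¬ ∃ m : ℕ, s * N = m) → B ≤ W.w s) (s t : ℚ≥0) :
    ‖conv (lv0 W N (mon W s 1)) (lv0 W N (mon W t 1)) - lv0 W N (mon W s 1 * mon W t 1)‖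
      ≤ W.w s * W.w t / B ^ 2 := by
  have hR : 0 ≤ W.w s * W.w t / B ^ 2 :=
    div_nonneg (mul_nonneg (W.nonneg s) (W.nonneg t)) (by positivity)
  rw [pi_norm_le_iff_of_nonneg hR]
  intro j
  have hN : (0 : ℚ≥0) < N := by
    have := j.2
    exact_mod_cast (by omega : 0 < N)
  rw [Pi.sub_apply, conv_mon, mon_mul_mon, one_mul, lv0_mon]
  by_cases hs : ∃ p : ℕ, s * N = p
  · by_cases ht : ∃ q : ℕ, t * N = q
    · -- both are at level N
      obtain ⟨p, hp⟩ := hs
      obtain ⟨q, hq⟩ := ht
      have hcast : (s + t) * N = ((p + q : ℕ) : ℚ≥0) := by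
        rw [add_mul, hp, hq]; push_cast; ring
      rw [hcast]
      by_cases hpq : p + q = (j : ℕ)
      · have hpN : p < N := by have := j.2; omega
        have hqN : q < N := by have := j.2; omega
        rw [Finset.sum_eq_single (⟨p, hpN⟩, ⟨q, hqN⟩)]
        · rw [if_pos ⟨hp, hq⟩, if_pos (by exact_mod_cast hpq)]
          simpa using hR
        · rintro ⟨p', q'⟩ _ hne
          rw [if_neg]
          rintro ⟨h1, h2⟩
          apply hne
          rw [hp] at h1
          rw [hq] at h2
          have h1' : p = (p' : ℕ) := by exact_mod_cast h1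
          have h2' : q = (q' : ℕ) := by exact_mod_cast h2
          ext <;> simp [h1', h2']
        · intro h
          exact absurd (by simpa using hpq) h
      · rw [Finset.sum_eq_zero, if_neg]
        · simpa using hR
        · intro h
          apply hpq
          exact_mod_cast h
        · rintro ⟨p', q'⟩ hpq'
          rw [if_neg]
          rintro ⟨h1, h2⟩
          rw [hp] at h1
          rw [hq] at h2
          have h1' : p = (p' : ℕ) := by exact_mod_cast h1
          have h2' : q = (q' : ℕ) := by exact_mod_cast h2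
          simp only [Finset.mem_filter, Finset.mem_univ, true_and] at hpq'
          apply hpq
          rw [h1', h2']
          exact hpq'
    · rw [Finset.sum_eq_zero, if_neg]
      · simpa using hR
      · intro h
        obtain ⟨p, hp⟩ := hs
        apply ht
        rw [add_mul, hp] at h
        have hle : p ≤ (j : ℕ) := by
          have : (p : ℚ≥0) ≤ (j : ℕ) := by rw [← h]; exact le_self_add
          exact_mod_cast this
        refine ⟨(j : ℕ) - p, ?_⟩
        have : (p : ℚ≥0) + t * N = p + ((j : ℕ) - p : ℕ) := by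
          rw [h]
          have : p + ((j : ℕ) - p) = (j : ℕ) := by omega
          exact_mod_cast this.symm
        exact add_left_cancel this
      · rintro ⟨p', q'⟩ _
        rw [if_neg]
        rintro ⟨h1, h2⟩
        exact ht ⟨_, h2⟩
  · by_cases ht : ∃ q : ℕ, t * N = q
    · rw [Finset.sum_eq_zero, if_neg]
      · simpa using hR
      · intro h
        obtain ⟨q, hq⟩ := ht
        apply hs
        rw [add_mul, hq] at h
        have hle : q ≤ (j : ℕ) := by
          have : (q : ℚ≥0) ≤ (j : ℕ) := by rw [← h]; exact le_add_self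
          exact_mod_cast this
        refine ⟨(j : ℕ) - q, ?_⟩
        have : s * N + (q : ℚ≥0) = ((j : ℕ) - q : ℕ) + q := by
          rw [h]
          have : ((j : ℕ) - q) + q = (j : ℕ) := by omega
          exact_mod_cast this.symm
        exact add_right_cancel this
      · rintro ⟨p', q'⟩ _
        rw [if_neg]
        rintro ⟨h1, h2⟩
        exact hs ⟨_, h1⟩
    · rw [Finset.sum_eq_zero]
      · by_cases h : (s + t) * N = ((j : ℕ) : ℚ≥0)
        · rw [if_pos h, zero_sub, norm_neg, norm_one]
          have hst : s + t < 1 := by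
            have h1 : (s + t) * N < 1 * N := by
              rw [h, one_mul]; exact_mod_cast j.2
            exact lt_of_mul_lt_mul_right h1 (by positivity)
          have hs1 : s < 1 := lt_of_le_of_lt le_self_add hst
          have ht1 : t < 1 := lt_of_le_of_lt le_add_self hst
          rw [le_div_iff₀ (by positivity), one_mul, sq]
          exact mul_le_mul (hBw s hs1 hs) (hBw t ht1 ht) hB.le (W.nonneg s)
        · rw [if_neg h]
          simpa using hR
      · rintro ⟨p', q'⟩ _
        rw [if_neg]
        rintro ⟨h1, h2⟩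
        exact hs ⟨_, h1⟩

lemma defect_A0 (W : Weight) (N : ℕ) (B : ℝ) (hB : 0 < B)
    (hBw : ∀ s : ℚ≥0, s < 1 → (¬ ∃ m : ℕ, s * N = m) → B ≤ W.w s) (x y : A0 W) :
    ‖conv (lv0 W N x) (lv0 W N y) - lv0 W N (x * y)‖ ≤ ‖x‖ * ‖y‖ / B ^ 2 := by
  have h1 : ∀ t, ‖defectL W N (mon W t 1) x‖ ≤ (W.w t / B ^ 2) * ‖x‖ := by
    intro t
    apply norm_le_norm_A0
    intro s
    have := defect_mon W N B hB hBw s t
    refine this.trans (le_of_eq ?_)
    ring
  have h2 : ‖defectR W N x y‖ ≤ (‖x‖ / B ^ 2) * ‖y‖ := by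
    apply norm_le_norm_A0
    intro t
    refine (h1 t).trans (le_of_eq ?_)
    ring
  refine h2.trans (le_of_eq ?_)
  ring

lemma lvl_coe (W : Weight) (N : ℕ) (x : A0 W) : lvl W N (x : AA W) = lv0 W N x := by
  funext j
  exact cf_coe W _ x

lemma continuous_lvl (W : Weight) (N : ℕ) : Continuous (lvl W N) := by
  unfold lvl
  fun_prop

/-- The multiplicativity defect of level `N` truncation is small. -/
theorem lvl_mul_err (W : Weight) (N : ℕ) (B : ℝ) (hB : 0 < B)
    (hBw : ∀ s : ℚ≥0, s < 1 → (¬ ∃ m : ℕ, s * N = m) → B ≤ W.w s) (x y : AA W) :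
    ‖conv (lvl W N x) (lvl W N y) - lvl W N (x * y)‖ ≤ ‖x‖ * ‖y‖ / B ^ 2 := by
  induction x, y using UniformSpace.Completion.induction_on₂ with
  | hp =>
    apply isClosed_le
    · apply Continuous.norm
      apply Continuous.sub
      · rw [continuous_iff_continuousAt]
        intro p
        exact tendsto_conv ((continuous_lvl W N).comp continuous_fst).continuousAt
          ((continuous_lvl W N).comp continuous_snd).continuousAt
      · exact (continuous_lvl W N).comp continuous_mul
    · fun_prop
  | ih x y =>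
    rw [← UniformSpace.Completion.coe_mul, lvl_coe, lvl_coe, lvl_coe,
      UniformSpace.Completion.norm_coe, UniformSpace.Completion.norm_coe]
    exact defect_A0 W N B hB hBw x y

lemma norm_lvl_le (W : Weight) (N : ℕ) (x : AA W) : ‖lvl W N x‖ ≤ ‖x‖ := by
  rw [pi_norm_le_iff_of_nonneg (norm_nonneg _)]
  intro j
  exact norm_cf_le W _ x

end Pool.Agent.MP3d411c
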