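import Mathlib
import Pool.Agent.MP3d411c.Level

set_option autoImplicit false

namespace Pool.Agent.MP3d411c

open scoped Nat

lemma exists_lev (s : ℚ≥0) : ∃ k : ℕ, ∃ m : ℕ, s * (k ! : ℕ) = m := by
  refine ⟨s.den, s.num * (s.den - 1)!, ?_⟩
  have hd : 0 < s.den := s.den_pos
  have h1 : s.den * (s.den - 1)! = s.den ! := Nat.mul_factorial_pred hd.ne'
  rw [← h1]
  push_cast
  have h2 : s * s.den = s.num := NNRat.mul_den_eq_num s
  rw [← mul_assoc, h2]

/-- The level of a nonnegative rational `s`: the least `k` with `k! s ∈ ℕ`. -/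
noncomputable def lev (s : ℚ≥0) : ℕ := by
  classical
  exact Nat.find (exists_lev s)

lemma lev_spec (s : ℚ≥0) : ∃ m : ℕ, s * ((lev s)! : ℕ) = m := by
  classical
  unfold lev
  exact Nat.find_spec (exists_lev s)

lemma lev_le_iff (s : ℚ≥0) (k : ℕ) : lev s ≤ k ↔ ∃ m : ℕ, s * (k ! : ℕ) = m := by
  classical
  constructor
  · intro h
    obtain ⟨m, hm⟩ := lev_spec s
    obtain ⟨d, hd⟩ := Nat.factorial_dvd_factorial h
    refine ⟨m * d, ?_⟩
    rw [hd]
    push_cast
    rw [← mul_assoc, hm]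
  · intro h
    exact Nat.find_min' _ h

lemma lev_add (s t : ℚ≥0) : lev (s + t) ≤ max (lev s) (lev t) := by
  rw [lev_le_iff]
  obtain ⟨m, hm⟩ := (lev_le_iff s (max (lev s) (lev t))).mp (le_max_left _ _)
  obtain ⟨n, hn⟩ := (lev_le_iff t (max (lev s) (lev t))).mp (le_max_right _ _)
  exact ⟨m + n, by rw [add_mul, hm, hn]; push_cast; ring⟩

lemma lev_zero : lev 0 = 0 := by
  have := (lev_le_iff 0 0).mpr ⟨0, by simp⟩
  omega

/-- The weight attached to a nondecreasing sequence `F` with `F 0 = 1`. -/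
noncomputable def mkWeight (F : ℕ → ℝ) (hF0 : F 0 = 1) (hF : Monotone F) : Weight where
  w := fun s => if s < 1 then F (lev s) else 0
  nonneg := by
    intro s
    split_ifs with h
    · have := hF (Nat.zero_le (lev s))
      linarith
    · exact le_rfl
  add_le := by
    intro s t
    have hone : ∀ n, 1 ≤ F n := fun n => by
      have := hF (Nat.zero_le n); linarith
    by_cases hst : s + t < 1
    · have hs : s < 1 := lt_of_le_of_lt le_self_add hst
      have ht : t < 1 := lt_of_le_of_lt le_add_self hst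
      rw [if_pos hst, if_pos hs, if_pos ht]
      have h1 := hF (lev_add s t)
      rcases max_choice (lev s) (lev t) with h | h
      · rw [h] at h1
        calc F (lev (s + t)) ≤ F (lev s) * 1 := by linarith
          _ ≤ F (lev s) * F (lev t) :=
            mul_le_mul_of_nonneg_left (hone _) (by linarith [hone (lev s)])
      · rw [h] at h1
        calc F (lev (s + t)) ≤ 1 * F (lev t) := by linarith
          _ ≤ F (lev s) * F (lev t) :=
            mul_le_mul_of_nonneg_right (hone _) (by linarith [hone (lev t)])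
    · rw [if_neg hst]
      apply mul_nonneg
      · split_ifs
        · linarith [hone (lev s)]
        · exact le_rfl
      · split_ifs
        · linarith [hone (lev t)]
        · exact le_rfl
  zero := by rw [if_pos one_pos, lev_zero, hF0]
  one_le := by
    intro s hs
    rw [if_pos hs]
    have := hF (Nat.zero_le (lev s))
    linarith
  trunc := by
    intro s hs
    rw [if_neg (not_lt.mpr hs)]

lemma mkWeight_ge (F : ℕ → ℝ) (hF0 : F 0 = 1) (hF : Monotone F) (k : ℕ) (s : ℚ≥0) (hs : s < 1)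
    (h : ¬ ∃ m : ℕ, s * (k ! : ℕ) = m) : F (k + 1) ≤ (mkWeight F hF0 hF).w s := by
  have h1 : ¬ lev s ≤ k := fun h' => h ((lev_le_iff s k).mp h')
  show F (k + 1) ≤ if s < 1 then F (lev s) else 0
  rw [if_pos hs]
  exact hF (by omega)

/-- The stability constants. -/
noncomputable def eps (k : ℕ) : ℝ :=
  Classical.choose (stab (N := k !) (Nat.factorial_pos k) (k : ℝ) (1 / ((k : ℝ) + 1))
    (by positivity))

lemma eps_pos (k : ℕ) : 0 < eps k :=
  (Classical.choose_spec (stab (N := k !) (Nat.factorial_pos k) (k : ℝ) (1 / ((k : ℝ) + 1))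
    (by positivity))).1

lemma eps_spec (k : ℕ) : ∀ g : ℕ → Fin (k !) → ℂ,
      (∀ i, k ! ≤ i → i ≤ 4 * k ! → ∀ j : Fin (k !), (j : ℕ) = 0 → g i j = 0) →
      (∀ i, k ! ≤ i → i ≤ 4 * k ! → ‖g i‖ ≤ k) →
      (∀ i j, k ! ≤ i → k ! ≤ j → i + j ≤ 4 * k ! → ‖conv (g i) (g j) - g (i + j)‖ ≤ eps k) →
      ‖g (4 * k !)‖ ≤ 1 / ((k : ℝ) + 1) :=
  (Classical.choose_spec (stab (N := k !) (Nat.factorial_pos k) (k : ℝ) (1 / ((k : ℝ) + 1))
    (by positivity))).2

/-- The rapidly growing sequence of level weights. -/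
noncomputable def FF : ℕ → ℝ
  | 0 => 1
  | (k + 1) => max (FF k) (((k : ℝ) + 1) * (1 + 1 / eps k))

lemma FF_mono : Monotone FF := monotone_nat_of_le_succ fun _ => le_max_left _ _

lemma FF_ge (k : ℕ) : ((k : ℝ) + 1) * (1 + 1 / eps k) ≤ FF (k + 1) := le_max_right _ _

/-- The weight of our example. -/
noncomputable def WW : Weight := mkWeight FF rfl FF_mono

lemma cf_eq_zero_of_one_le (W : Weight) {s : ℚ≥0} (hs : 1 ≤ s) (x : AA W) : cf W s x = 0 := by
  induction x using UniformSpace.Completion.induction_on with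
  | hp => apply isClosed_eq <;> fun_prop
  | ih x => rw [cf_coe, cf0_apply_ge W (not_lt.mpr hs)]

/-- A semigroup in the radical which is bounded on `[c, 4c]` vanishes at `4c`. -/
theorem semigroup_vanish (b : ℝ → AA WW) (hb : ∀ s t, 0 < s → 0 < t → b (s + t) = b s * b t)
    (hrad : ∀ t, 0 < t → cf WW 0 (b t) = 0) (c : ℝ) (hc : 0 < c) (C : ℝ)
    (hC : ∀ t, c ≤ t → t ≤ 4 * c → ‖b t‖ ≤ C) : b (4 * c) = 0 := by
  -- main estimate
  have main : ∀ k : ℕ, C ≤ k → ‖lvl WW (k !) (b (4 * c))‖ ≤ 1 / ((k : ℝ) + 1) := by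
    intro k hk
    have hC0 : 0 ≤ C := (norm_nonneg _).trans (hC c le_rfl (by linarith))
    have hNpos : (0 : ℝ) < (k ! : ℕ) := by exact_mod_cast Nat.factorial_pos k
    have hbound : ∀ i : ℕ, k ! ≤ i → i ≤ 4 * k ! → ‖b (c * (i / (k ! : ℕ)))‖ ≤ C := by
      intro i hi hi4
      apply hC
      · have : (1 : ℝ) ≤ (i : ℝ) / (k ! : ℕ) := by
          rw [le_div_iff₀ hNpos, one_mul]; exact_mod_cast hi
        nlinarith
      · have : (i : ℝ) / (k ! : ℕ) ≤ 4 := by
          rw [div_le_iff₀ hNpos]; exact_mod_cast hi4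
        nlinarith
    have hposi : ∀ i : ℕ, k ! ≤ i → 0 < c * ((i : ℝ) / (k ! : ℕ)) := by
      intro i hi
      have : (0 : ℝ) < i := by
        have := Nat.factorial_pos k
        exact_mod_cast (by omega : 0 < i)
      positivity
    have key := eps_spec k (fun i => lvl WW (k !) (b (c * (i / (k ! : ℕ))))) ?_ ?_ ?_
    · have e : c * (((4 * k ! : ℕ) : ℝ) / (k ! : ℕ)) = 4 * c := by
        push_cast
        field_simp
      rw [e] at key
      exact key
    · intro i hi _ j hj
      show cf WW (((j : ℕ) : ℚ≥0) / (k ! : ℕ)) _ = 0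
      rw [hj, Nat.cast_zero, zero_div]
      exact hrad _ (hposi i hi)
    · intro i hi hi4
      exact ((norm_lvl_le _ _ _).trans (hbound i hi hi4)).trans hk
    · intro i j hi hj hij
      have hadd : c * (((i + j : ℕ) : ℝ) / (k ! : ℕ)) = c * (i / (k ! : ℕ)) + c * (j / (k ! : ℕ)) := by
        push_cast; ring
      rw [hadd, hb _ _ (hposi i hi) (hposi j hj)]
      have hε := eps_pos k
      have hB : 0 < ((k : ℝ) + 1) * (1 + 1 / eps k) := by positivity
      have h1 := lvl_mul_err WW (k !) (((k : ℝ) + 1) * (1 + 1 / eps k)) hB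
        (fun s hs hns => (FF_ge k).trans (mkWeight_ge FF rfl FF_mono k s hs hns))
        (b (c * (i / (k ! : ℕ)))) (b (c * (j / (k ! : ℕ))))
      refine h1.trans ?_
      have hi' := (hbound i hi (by omega)).trans hk
      have hj' := (hbound j hj (by omega)).trans hk
      have h2 : ‖b (c * (i / (k ! : ℕ)))‖ * ‖b (c * (j / (k ! : ℕ)))‖ ≤ ((k : ℝ) + 1) ^ 2 := by
        have hk0 : (0 : ℝ) ≤ k := by positivity
        calc ‖b (c * (i / (k ! : ℕ)))‖ * ‖b (c * (j / (k ! : ℕ)))‖ ≤ (k : ℝ) * k :=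
              mul_le_mul hi' hj' (norm_nonneg _) hk0
          _ ≤ ((k : ℝ) + 1) ^ 2 := by nlinarith
      rw [div_le_iff₀ (by positivity), mul_pow]
      have h3 : 1 ≤ eps k * (1 + 1 / eps k) ^ 2 := by
        have : eps k * (1 + 1 / eps k) = eps k + 1 := by field_simp
        have h4 : eps k * (1 + 1 / eps k) ^ 2 = (eps k + 1) * (1 + 1 / eps k) := by
          rw [sq, ← mul_assoc, this]
        rw [h4]
        have h5 : 0 < 1 / eps k := by positivity
        nlinarith
      calc ‖b (c * (i / (k ! : ℕ)))‖ * ‖b (c * (j / (k ! : ℕ)))‖ ≤ ((k : ℝ) + 1) ^ 2 * 1 := by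
            rw [mul_one]; exact h2
        _ ≤ ((k : ℝ) + 1) ^ 2 * (eps k * (1 + 1 / eps k) ^ 2) :=
            mul_le_mul_of_nonneg_left h3 (by positivity)
        _ = eps k * (((k : ℝ) + 1) ^ 2 * (1 + 1 / eps k) ^ 2) := by ring
  -- all coefficients vanish
  apply eq_zero_of_cf
  intro s
  by_cases hs : s < 1
  · have hle : ∀ k : ℕ, C ≤ k → lev s ≤ k → ‖cf WW s (b (4 * c))‖ ≤ 1 / ((k : ℝ) + 1) := by
      intro k hk hlev
      obtain ⟨m, hm⟩ := (lev_le_iff s k).mp hlev
      have hNpos : (0 : ℚ≥0) < (k ! : ℕ) := by exact_mod_cast Nat.factorial_pos k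
      have hmN : m < k ! := by
        have : s * (k ! : ℕ) < 1 * (k ! : ℕ) := mul_lt_mul_of_pos_right hs hNpos
        rw [hm, one_mul] at this
        exact_mod_cast this
      have h1 : s = (((⟨m, hmN⟩ : Fin (k !)) : ℕ) : ℚ≥0) / (k ! : ℕ) := by
        rw [eq_div_iff hNpos.ne']; exact hm
      have h2 : cf WW s (b (4 * c)) = lvl WW (k !) (b (4 * c)) ⟨m, hmN⟩ := by
        unfold lvl
        rw [← h1]
      rw [h2]
      exact (norm_le_pi_norm _ _).trans (main k hk)
    rw [← norm_eq_zero]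
    apply le_antisymm _ (norm_nonneg _)
    have hlim := tendsto_one_div_add_atTop_nhds_zero_nat (𝕜 := ℝ)
    apply ge_of_tendsto hlim
    obtain ⟨k0, hk0⟩ := exists_nat_ge C
    filter_upwards [Filter.eventually_ge_atTop (max k0 (lev s))] with k hk
    apply hle k
    · exact hk0.trans (by exact_mod_cast (le_max_left _ _).trans hk)
    · exact (le_max_right _ _).trans hk
  · exact cf_eq_zero_of_one_le WW (not_lt.mp hs) _

end Pool.Agent.MP3d411c
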