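import Mathlib
import Pool.Agent.MP3d411c.Algebra
import Pool.Agent.MP3d411c.ExpLog

set_option autoImplicit false

namespace Pool.Agent.MP3d411c

open NormedSpace Filter Topology

variable (W : Weight)

/-- `E q z = δ_q · exp z`. -/
noncomputable def E (q : ℚ) (z : AA W) : AA W := dl W q.toNNRat * exp z

lemma E_add {q q' : ℚ} (hq : 0 ≤ q) (hq' : 0 ≤ q') (z z' : AA W) :
    E W (q + q') (z + z') = E W q z * E W q' z' := by
  unfold E
  rw [Rat.toNNRat_add hq hq', dl_add, ex_add]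
  ring

lemma E_zero : E W 0 0 = 1 := by
  unfold E
  rw [Rat.toNNRat_zero, dl_zero, ex_zero, one_mul]

lemma E_nsmul {q : ℚ} (hq : 0 ≤ q) (z : AA W) (n : ℕ) :
    E W (n * q) ((n : ℂ) • z) = E W q z ^ n := by
  induction n with
  | zero => simp [E_zero]
  | succ n ih =>
    rw [pow_succ, ← ih, ← E_add W (by positivity) hq]
    congr 1
    · push_cast; ring
    · push_cast; rw [add_smul, one_smul]

lemma E_mul_exp (q : ℚ) (z k : AA W) : E W q z * exp k = E W q (z + k) := by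
  unfold E
  rw [ex_add]; ring

/-- The perturbation step. -/
lemma step (c : ℚ) (hc : 0 < c) (z : AA W) (I : ℕ) (ε : ℝ) (hε : 0 < ε) :
    ∃ y : AA W, ∀ a b : ℕ, a ≤ I → b ≤ I →
      ‖E W (c / 2) ((1 / 2 : ℂ) • z) ^ a * E W (c / 6) y ^ b
        - E W (c / 2) ((1 / 2 : ℂ) • z) ^ (a + b)‖ < ε := by
  set V := E W (c / 2) ((1 / 2 : ℂ) • z) with hV
  set D := dl W (c / 6).toNNRat with hD
  -- eventually in `η`, all finitely many inequalities hold
  have hev : ∀ᶠ η : ℝ in 𝓝 0, ∀ p ∈ Finset.range (I + 1) ×ˢ Finset.range (I + 1),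
      ‖V ^ p.1 * (V + (η : ℂ) • D) ^ p.2 - V ^ (p.1 + p.2)‖ < ε := by
    rw [Finset.eventually_all]
    intro p _
    have hcont : Continuous fun η : ℝ =>
        ‖V ^ p.1 * (V + (η : ℂ) • D) ^ p.2 - V ^ (p.1 + p.2)‖ := by
      fun_prop
    have h0 : ‖V ^ p.1 * (V + ((0 : ℝ) : ℂ) • D) ^ p.2 - V ^ (p.1 + p.2)‖ < ε := by
      rw [Complex.ofReal_zero, zero_smul, add_zero, ← pow_add, sub_self, norm_zero]
      exact hε
    exact hcont.continuousAt.eventually_lt continuousAt_const h0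
  have hev' : ∀ᶠ η : ℝ in 𝓝[>] 0, ∀ p ∈ Finset.range (I + 1) ×ˢ Finset.range (I + 1),
      ‖V ^ p.1 * (V + (η : ℂ) • D) ^ p.2 - V ^ (p.1 + p.2)‖ < ε :=
    hev.filter_mono nhdsWithin_le_nhds
  obtain ⟨η, hη, hηpos⟩ := (hev'.and self_mem_nhdsWithin).exists
  have hηpos' : 0 < η := hηpos
  have hnil : IsNilpotent (dl W (c / 3).toNNRat * exp ((1 / 2 : ℂ) • z)) := by
    apply (Commute.all _ _).isNilpotent_mul_right
    apply isNilpotent_dl
    rw [Rat.toNNRat_pos]
    positivity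
  obtain ⟨y, hy⟩ := exists_log η hηpos' _ hnil
  refine ⟨y, fun a b ha hb => ?_⟩
  have hEy : E W (c / 6) y = V + (η : ℂ) • D := by
    rw [hV, hD]
    unfold E
    rw [hy, mul_add, ← mul_assoc, ← dl_add, ← Rat.toNNRat_add (by positivity) (by positivity),
      Algebra.algebraMap_eq_smul_one, mul_smul_comm, mul_one, add_comm]
    congr 4
    ring
  rw [hEy]
  exact hη (a, b) (by simp; omega)

/-- The denominators `n! 2^n`. -/
def LL (n : ℕ) : ℕ := n.factorial * 2 ^ n

lemma LL_pos (n : ℕ) : 0 < LL n := Nat.mul_pos n.factorial_pos (by positivity)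

/-- The first coordinates. -/
def cc (n : ℕ) : ℚ := (1 / 2) * (2 / 3) ^ n

lemma cc_pos (n : ℕ) : 0 < cc n := by unfold cc; positivity

lemma cc_succ (n : ℕ) : cc (n + 1) = cc n * (2 / 3) := by unfold cc; ring

/-- The perturbation chosen at stage `n` from the state `(z, S)`. -/
noncomputable def YY (n : ℕ) (s : AA W × ℝ) : AA W :=
  Classical.choose (step W (cc n / LL n)
    (div_pos (cc_pos n) (by exact_mod_cast LL_pos n)) ((1 / (LL n : ℂ)) • s.1)
    (4 * LL n * (n + 1)) ((1 / 4) ^ (n + 1) / Real.exp ((n + 1) * s.2)) (by positivity))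

lemma YY_spec (n : ℕ) (s : AA W × ℝ) : ∀ a b : ℕ, a ≤ 4 * LL n * (n + 1) →
    b ≤ 4 * LL n * (n + 1) →
      ‖E W (cc n / LL n / 2) ((1 / 2 : ℂ) • (1 / (LL n : ℂ)) • s.1) ^ a
          * E W (cc n / LL n / 6) (YY W n s) ^ b
        - E W (cc n / LL n / 2) ((1 / 2 : ℂ) • (1 / (LL n : ℂ)) • s.1) ^ (a + b)‖
        < (1 / 4) ^ (n + 1) / Real.exp ((n + 1) * s.2) :=
  Classical.choose_spec (step W (cc n / LL n)
    (div_pos (cc_pos n) (by exact_mod_cast LL_pos n)) ((1 / (LL n : ℂ)) • s.1)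
    (4 * LL n * (n + 1)) ((1 / 4) ^ (n + 1) / Real.exp ((n + 1) * s.2)) (by positivity))

/-- The correction `κ_{n+1}` computed from the state at stage `n`. -/
noncomputable def kap (n : ℕ) (s : AA W × ℝ) : AA W :=
  (1 / 2 ^ (n + 2) : ℂ) • s.1 - (3 / 2 * (n.factorial : ℂ)) • YY W n s

/-- The state `(z_n, S_n)`. -/
noncomputable def st : ℕ → AA W × ℝ
  | 0 => (0, 0)
  | (n + 1) => ((1 / 2 : ℂ) • (st n).1 + (LL n : ℂ) • YY W n (st n), (st n).2 + ‖kap W n (st n)‖)

/-- Partial sums `π_n`. -/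
def pn (x : ℕ → ℚ) (n : ℕ) : ℚ := ∑ m ∈ Finset.range (n + 1), x m / 2 ^ m

lemma pn_succ (x : ℕ → ℚ) (n : ℕ) : pn x (n + 1) = pn x n + x (n + 1) / 2 ^ (n + 1) := by
  unfold pn
  rw [Finset.sum_range_succ]

/-- The accumulated corrections. -/
noncomputable def Kn (x : ℕ → ℚ) : ℕ → AA W
  | 0 => 0
  | (n + 1) => Kn x n + (x (n + 1) : ℂ) • kap W n (st W n)

/-- The approximants. -/
noncomputable def En (x : ℕ → ℚ) (n : ℕ) : AA W :=
  E W (cc n * pn x n) ((pn x n : ℂ) • (st W n).1 + Kn W x n)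

lemma norm_Kn_le (x : ℕ → ℚ) (M : ℝ) (hM : ∀ m, |(x m : ℝ)| ≤ M) (n : ℕ) :
    ‖Kn W x n‖ ≤ M * (st W n).2 := by
  induction n with
  | zero => simp [Kn, st]
  | succ n ih =>
    have h1 : ‖Kn W x (n + 1)‖ ≤ ‖Kn W x n‖ + M * ‖kap W n (st W n)‖ := by
      show ‖Kn W x n + (x (n + 1) : ℂ) • kap W n (st W n)‖ ≤ _
      refine (norm_add_le _ _).trans ?_
      gcongr
      rw [norm_smul]
      gcongr
      have : ‖((x (n + 1) : ℚ) : ℂ)‖ = |((x (n + 1) : ℚ) : ℝ)| := by
        rw [← Complex.ofReal_ratCast, Complex.norm_real, Real.norm_eq_abs]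
      rw [this]
      exact hM _
    have h2 : (st W (n + 1)).2 = (st W n).2 + ‖kap W n (st W n)‖ := rfl
    rw [h2, mul_add]
    linarith

/-- Algebraic description of two consecutive approximants. -/
lemma En_eq (x : ℕ → ℚ) (n a b : ℕ) (h1 : (a : ℚ) + b = 2 * (LL n) * pn x n) :
    En W x n = E W (cc n / LL n / 2) ((1 / 2 : ℂ) • (1 / (LL n : ℂ)) • (st W n).1) ^ (a + b)
      * exp (Kn W x n) := by
  have hL : (LL n : ℚ) ≠ 0 := by exact_mod_cast (LL_pos n).ne'
  have hL' : (LL n : ℂ) ≠ 0 := by exact_mod_cast (LL_pos n).ne'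
  have hp : pn x n = ((a : ℚ) + b) / (2 * LL n) := by
    rw [h1]; field_simp
  have hpc : (pn x n : ℂ) = ((a : ℂ) + b) / (2 * LL n) := by
    rw [hp]; push_cast; ring
  rw [← E_nsmul W (by have := cc_pos n; positivity), E_mul_exp]
  unfold En
  congr 1
  · rw [hp]; push_cast; field_simp
  · rw [hpc, smul_smul, smul_smul]
    congr 2
    push_cast
    field_simp

lemma En_succ_eq (x : ℕ → ℚ) (n a b : ℕ) (h1 : (a : ℚ) + b = 2 * (LL n) * pn x n)
    (h2 : (a : ℚ) - b = 2 * (n.factorial : ℚ) * x (n + 1)) :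
    En W x (n + 1) = E W (cc n / LL n / 2) ((1 / 2 : ℂ) • (1 / (LL n : ℂ)) • (st W n).1) ^ a
      * E W (cc n / LL n / 6) (YY W n (st W n)) ^ b * exp (Kn W x n) := by
  have hL : (LL n : ℚ) ≠ 0 := by exact_mod_cast (LL_pos n).ne'
  have hL' : (LL n : ℂ) ≠ 0 := by exact_mod_cast (LL_pos n).ne'
  have hf : (n.factorial : ℚ) ≠ 0 := by exact_mod_cast n.factorial_ne_zero
  have hf' : (n.factorial : ℂ) ≠ 0 := by exact_mod_cast n.factorial_ne_zero
  have hLe : (LL n : ℚ) = n.factorial * 2 ^ n := by unfold LL; push_cast; ring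
  have hLe' : (LL n : ℂ) = n.factorial * 2 ^ n := by unfold LL; push_cast; ring
  have hx : x (n + 1) = ((a : ℚ) - b) / (2 * n.factorial) := by
    rw [h2]; field_simp
  have hp : pn x n = ((a : ℚ) + b) / (2 * LL n) := by
    rw [h1]; field_simp
  have hp' : pn x (n + 1) = (3 * (a : ℚ) + b) / (4 * LL n) := by
    rw [pn_succ, hp, hx, hLe]
    field_simp
    ring
  have hpc' : (pn x (n + 1) : ℂ) = (3 * (a : ℂ) + b) / (4 * LL n) := by
    rw [hp']; push_cast; ring
  have hxc : (x (n + 1) : ℂ) = ((a : ℂ) - b) / (2 * n.factorial) := by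
    rw [hx]; push_cast; ring
  have hcc := cc_pos n
  rw [← E_nsmul W (by positivity), ← E_nsmul W (by positivity), ← E_add W (by positivity)
    (by positivity), E_mul_exp]
  unfold En
  congr 1
  · rw [hp', cc_succ]
    field_simp
    ring
  · show (pn x (n + 1) : ℂ) • ((1 / 2 : ℂ) • (st W n).1 + (LL n : ℂ) • YY W n (st W n))
      + (Kn W x n + (x (n + 1) : ℂ) • ((1 / 2 ^ (n + 2) : ℂ) • (st W n).1
        - (3 / 2 * (n.factorial : ℂ)) • YY W n (st W n))) = _
    rw [hpc', hxc, hLe']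
    have h3 : ((2 : ℂ) ^ n) ≠ 0 := pow_ne_zero n two_ne_zero
    simp only [smul_add, smul_sub, smul_smul]
    have e1 : ((3 * (a : ℂ) + b) / (4 * (n.factorial * 2 ^ n)) * (1 / 2))
        + ((a : ℂ) - b) / (2 * n.factorial) * (1 / 2 ^ (n + 2))
        = (a : ℂ) * (1 / 2 * (1 / (n.factorial * 2 ^ n))) := by
      field_simp
      ring
    have e2 : ((3 * (a : ℂ) + b) / (4 * (n.factorial * 2 ^ n)) * (n.factorial * 2 ^ n))
        - ((a : ℂ) - b) / (2 * n.factorial) * (3 / 2 * n.factorial) = (b : ℂ) := by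
      field_simp
      ring
    rw [← e1]
    conv_rhs => rw [← e2]
    module

/-- One-step estimate. -/
lemma En_step (x : ℕ → ℚ) (n : ℕ) (hint : ∀ m ≤ n + 1, ∃ k : ℤ, (n.factorial : ℚ) * x m = k)
    (hM : ∀ m, |x m| ≤ n + 1) (hj : |x (n + 1)| ≤ 2 ^ n * pn x n) :
    ‖En W x (n + 1) - En W x n‖ ≤ (1 / 4) ^ (n + 1) := by
  have hfpos : (0 : ℚ) < n.factorial := by exact_mod_cast n.factorial_pos
  have hLe : (LL n : ℚ) = n.factorial * 2 ^ n := by unfold LL; push_cast; ring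
  -- `LL n * pn x n` is an integer
  have hi : ∃ i : ℤ, (LL n : ℚ) * pn x n = i := by
    have : ∀ m ≤ n, ∃ i : ℤ, (LL n : ℚ) * (x m / 2 ^ m) = i := by
      intro m hm
      obtain ⟨k, hk⟩ := hint m (by omega)
      refine ⟨k * 2 ^ (n - m), ?_⟩
      rw [hLe]
      push_cast
      rw [← hk, show (2 : ℚ) ^ n = 2 ^ (n - m) * 2 ^ m by rw [← pow_add]; congr 1; omega]
      field_simp
    choose! f hf using this
    refine ⟨∑ m ∈ Finset.range (n + 1), f m, ?_⟩
    unfold pn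
    rw [Finset.mul_sum]
    push_cast
    apply Finset.sum_congr rfl
    intro m hm
    exact hf m (by simp at hm; omega)
  obtain ⟨i, hi⟩ := hi
  obtain ⟨j, hj'⟩ := hint (n + 1) le_rfl
  have hji : |j| ≤ i := by
    have : |(j : ℚ)| ≤ i := by
      rw [← hj', ← hi, hLe, abs_mul, abs_of_pos hfpos, mul_assoc]
      exact mul_le_mul_of_nonneg_left hj hfpos.le
    exact_mod_cast this
  obtain ⟨hji1, hji2⟩ := abs_le.mp hji
  obtain ⟨a, ha⟩ : ∃ a : ℕ, (a : ℤ) = i + j := ⟨(i + j).toNat, Int.toNat_of_nonneg (by linarith)⟩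
  obtain ⟨b, hb⟩ : ∃ b : ℕ, (b : ℤ) = i - j := ⟨(i - j).toNat, Int.toNat_of_nonneg (by linarith)⟩
  have haq : (a : ℚ) = i + j := by exact_mod_cast ha
  have hbq : (b : ℚ) = i - j := by exact_mod_cast hb
  have h1 : (a : ℚ) + b = 2 * (LL n) * pn x n := by rw [mul_assoc, hi, haq, hbq]; ring
  have h2 : (a : ℚ) - b = 2 * (n.factorial : ℚ) * x (n + 1) := by
    rw [mul_assoc, hj', haq, hbq]; ring
  -- bound on `i`
  have hpn : pn x n ≤ 2 * (n + 1) := by
    have : pn x n ≤ ∑ m ∈ Finset.range (n + 1), ((n : ℚ) + 1) * (1 / 2) ^ m := by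
      unfold pn
      apply Finset.sum_le_sum
      intro m _
      rw [div_eq_mul_inv]
      have : ((2 : ℚ) ^ m)⁻¹ = (1 / 2) ^ m := by rw [one_div, inv_pow]
      rw [this]
      apply mul_le_mul_of_nonneg_right ((le_abs_self _).trans (hM m)) (by positivity)
    refine this.trans ?_
    rw [← Finset.mul_sum, mul_comm]
    have h3 : ∑ m ∈ Finset.range (n + 1), (1 / 2 : ℚ) ^ m ≤ 2 := by
      rw [geom_sum_eq (by norm_num)]
      have : (0 : ℚ) ≤ (1 / 2) ^ (n + 1) := by positivity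
      rw [div_le_iff_of_neg (by norm_num)]
      linarith
    exact mul_le_mul_of_nonneg_right h3 (by positivity)
  have hab : a + b ≤ 4 * LL n * (n + 1) := by
    have : (a : ℚ) + b ≤ 4 * LL n * (n + 1) := by
      rw [h1]
      have hL : (0 : ℚ) ≤ LL n := by positivity
      nlinarith
    exact_mod_cast this
  rw [En_eq W x n a b h1, En_succ_eq W x n a b h1 h2, ← sub_mul]
  have hspec := YY_spec W n (st W n) a b (by omega) (by omega)
  have hMr : ∀ m, |(x m : ℝ)| ≤ (n : ℝ) + 1 := by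
    intro m
    have := hM m
    exact_mod_cast this
  have hK := norm_Kn_le W x _ hMr n
  have hexp : ‖exp (Kn W x n)‖ ≤ Real.exp ((n + 1) * (st W n).2) :=
    (norm_ex_le _).trans (Real.exp_le_exp.mpr hK)
  calc ‖(E W (cc n / LL n / 2) ((1 / 2 : ℂ) • (1 / (LL n : ℂ)) • (st W n).1) ^ a
          * E W (cc n / LL n / 6) (YY W n (st W n)) ^ b
        - E W (cc n / LL n / 2) ((1 / 2 : ℂ) • (1 / (LL n : ℂ)) • (st W n).1) ^ (a + b))
          * exp (Kn W x n)‖
      ≤ _ * _ := norm_mul_le _ _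
    _ ≤ ((1 / 4) ^ (n + 1) / Real.exp ((n + 1) * (st W n).2))
          * Real.exp ((n + 1) * (st W n).2) :=
        mul_le_mul hspec.le hexp (norm_nonneg _) (by positivity)
    _ = (1 / 4) ^ (n + 1) := by
        have := Real.exp_pos ((n + 1) * (st W n).2)
        field_simp

/-- The `ℚ`-vector space of bounded sequences of rationals with bounded denominators. -/
def DD : Submodule ℚ (ℕ → ℚ) where
  carrier := {x | ∃ M : ℕ, 0 < M ∧ ∀ n, (∃ k : ℤ, (M : ℚ) * x n = k) ∧ |x n| ≤ M}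
  zero_mem' := ⟨1, one_pos, fun n => ⟨⟨0, by simp⟩, by simp⟩⟩
  add_mem' := by
    rintro x y ⟨M, hM, hx⟩ ⟨M', hM', hy⟩
    refine ⟨2 * M * M', by positivity, fun n => ?_⟩
    obtain ⟨⟨k, hk⟩, hk'⟩ := hx n
    obtain ⟨⟨l, hl⟩, hl'⟩ := hy n
    constructor
    · refine ⟨2 * M' * k + 2 * M * l, ?_⟩
      simp only [Pi.add_apply]
      push_cast
      rw [← hk, ← hl]; ring
    · simp only [Pi.add_apply]
      have h1 : (1 : ℚ) ≤ M := by exact_mod_cast hM
      have h2 : (1 : ℚ) ≤ M' := by exact_mod_cast hM'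
      have h3 : |x n + y n| ≤ M + M' := (abs_add_le _ _).trans (add_le_add hk' hl')
      push_cast
      nlinarith
  smul_mem' := by
    rintro r x ⟨M, hM, hx⟩
    obtain ⟨A, hA⟩ : ∃ A : ℕ, |(r.num : ℚ)| = A :=
      ⟨r.num.natAbs, by rw [Nat.cast_natAbs, Int.cast_abs]⟩
    refine ⟨M * r.den * (A + 1), by have := r.den_pos; positivity, fun n => ?_⟩
    obtain ⟨⟨k, hk⟩, hk'⟩ := hx n
    have hden : (r.den : ℚ) * r = r.num := by rw [mul_comm]; exact Rat.mul_den_eq_num r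
    constructor
    · refine ⟨(A + 1) * r.num * k, ?_⟩
      simp only [Pi.smul_apply, smul_eq_mul]
      push_cast
      rw [← hk, ← hden]; ring
    · simp only [Pi.smul_apply, smul_eq_mul, abs_mul]
      push_cast
      have h1 : (1 : ℚ) ≤ r.den := by exact_mod_cast r.den_pos
      have h2 : |r| ≤ |(r.num : ℚ)| := by
        rw [← hden, abs_mul, abs_of_pos (by linarith : (0 : ℚ) < r.den)]
        nlinarith [abs_nonneg r]
      have hM1 : (0 : ℚ) ≤ M := by positivity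
      have hA1 : (0 : ℚ) ≤ A := by positivity
      calc |r| * |x n| ≤ |(r.num : ℚ)| * M := mul_le_mul h2 hk' (abs_nonneg _) (abs_nonneg _)
        _ = (A : ℚ) * (M * 1) := by rw [hA]; ring
        _ ≤ (A + 1) * (M * r.den) := by
            apply mul_le_mul (by linarith) _ (by positivity) (by positivity)
            exact mul_le_mul_of_nonneg_left h1 hM1
        _ = M * r.den * (A + 1) := by ring

lemma summable_DD (x : DD) : Summable fun n => ((x : ℕ → ℚ) n : ℝ) / 2 ^ n := by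
  obtain ⟨M, hM, hx⟩ := x.2
  apply Summable.of_norm_bounded (g := fun n => (M : ℝ) * (1 / 2) ^ n)
  · exact (summable_geometric_of_lt_one (by norm_num) (by norm_num)).mul_left _
  · intro n
    rw [norm_div, Real.norm_eq_abs, norm_pow, Real.norm_eq_abs, abs_two, div_eq_mul_inv]
    have h1 : ((2 : ℝ) ^ n)⁻¹ = (1 / 2) ^ n := by rw [one_div, inv_pow]
    rw [h1]
    apply mul_le_mul_of_nonneg_right _ (by positivity)
    have := (hx n).2
    exact_mod_cast this

/-- The evaluation `π : DD → ℝ`. -/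
noncomputable def piL : DD →ₗ[ℚ] ℝ where
  toFun := fun x => ∑' n, ((x : ℕ → ℚ) n : ℝ) / 2 ^ n
  map_add' := by
    intro x y
    rw [← (summable_DD x).tsum_add (summable_DD y)]
    apply tsum_congr
    intro n
    push_cast [Submodule.coe_add, Pi.add_apply]
    ring
  map_smul' := by
    intro r x
    rw [RingHom.id_apply, Rat.smul_def, ← (summable_DD x).tsum_mul_left]
    apply tsum_congr
    intro n
    push_cast [Submodule.coe_smul, Pi.smul_apply, smul_eq_mul]
    ring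

lemma tendsto_pn (x : DD) : Tendsto (fun n => ((pn x n : ℚ) : ℝ)) atTop (𝓝 (piL x)) := by
  have h := (summable_DD x).hasSum.tendsto_sum_nat
  have h2 := (tendsto_add_atTop_iff_nat 1).mpr h
  refine h2.congr fun n => ?_
  unfold pn
  push_cast
  rfl

lemma piL_surjective : Function.Surjective piL := by
  intro v
  -- binary digits
  let x : ℕ → ℚ := fun n => match n with
    | 0 => (⌊v⌋ : ℤ)
    | (n + 1) => ((⌊2 ^ (n + 1) * v⌋ - 2 * ⌊2 ^ n * v⌋ : ℤ) : ℚ)
  have hpn : ∀ n, pn x n = (⌊(2 : ℝ) ^ n * v⌋ : ℤ) / 2 ^ n := by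
    intro n
    induction n with
    | zero => simp [pn, x]
    | succ n ih =>
      rw [pn_succ, ih]
      show _ + ((⌊2 ^ (n + 1) * v⌋ - 2 * ⌊2 ^ n * v⌋ : ℤ) : ℚ) / 2 ^ (n + 1) = _
      push_cast
      field_simp
      ring
  have hdig : ∀ n : ℕ, 0 ≤ ⌊2 ^ (n + 1) * v⌋ - 2 * ⌊2 ^ n * v⌋ ∧
      ⌊2 ^ (n + 1) * v⌋ - 2 * ⌊2 ^ n * v⌋ ≤ 1 := by
    intro n
    have h1 := Int.floor_le (2 ^ n * v)
    have h2 := Int.lt_floor_add_one (2 ^ n * v)
    constructor
    · have : 2 * ⌊2 ^ n * v⌋ ≤ ⌊2 ^ (n + 1) * v⌋ := by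
        rw [Int.le_floor]
        push_cast
        rw [pow_succ]
        linarith
      linarith
    · have : ⌊2 ^ (n + 1) * v⌋ < 2 * ⌊2 ^ n * v⌋ + 2 := by
        rw [Int.floor_lt]
        push_cast
        rw [pow_succ]
        linarith
      linarith
  have hx : x ∈ DD := by
    obtain ⟨A, hA⟩ : ∃ A : ℕ, |((⌊v⌋ : ℤ) : ℚ)| = A :=
      ⟨⌊v⌋.natAbs, by rw [Nat.cast_natAbs, Int.cast_abs]⟩
    refine ⟨A + 1, by omega, fun n => ?_⟩
    have hint : ∃ k : ℤ, x n = k := by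
      cases n with
      | zero => exact ⟨⌊v⌋, rfl⟩
      | succ n => exact ⟨_, rfl⟩
    constructor
    · obtain ⟨k, hk⟩ := hint
      exact ⟨(A + 1) * k, by rw [hk]; push_cast; ring⟩
    · rw [Nat.cast_add, Nat.cast_one, ← hA]
      cases n with
      | zero =>
        show |((⌊v⌋ : ℤ) : ℚ)| ≤ _
        linarith
      | succ n =>
        show |((⌊2 ^ (n + 1) * v⌋ - 2 * ⌊2 ^ n * v⌋ : ℤ) : ℚ)| ≤ _
        have h1 : |(⌊2 ^ (n + 1) * v⌋ - 2 * ⌊2 ^ n * v⌋ : ℤ)| ≤ 1 := by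
          rw [abs_le]; have := hdig n; omega
        have h2 : |((⌊2 ^ (n + 1) * v⌋ - 2 * ⌊2 ^ n * v⌋ : ℤ) : ℚ)| ≤ 1 := by exact_mod_cast h1
        have h3 : 0 ≤ |((⌊v⌋ : ℤ) : ℚ)| := abs_nonneg _
        linarith
  refine ⟨⟨x, hx⟩, ?_⟩
  apply tendsto_nhds_unique (tendsto_pn ⟨x, hx⟩)
  have hlim : Tendsto (fun n : ℕ => v - (1 / 2 : ℝ) ^ n) atTop (𝓝 v) := by
    have := (tendsto_pow_atTop_nhds_zero_of_lt_one (r := (1 / 2 : ℝ)) (by norm_num) (by norm_num))
    simpa using tendsto_const_nhds.sub this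
  apply tendsto_of_tendsto_of_tendsto_of_le_of_le hlim tendsto_const_nhds
  · intro n
    show v - (1 / 2 : ℝ) ^ n ≤ ((pn x n : ℚ) : ℝ)
    rw [hpn]
    push_cast
    have h2 := Int.lt_floor_add_one (2 ^ n * v)
    rw [le_div_iff₀ (by positivity)]
    have h3 : (1 / 2 : ℝ) ^ n * 2 ^ n = 1 := by rw [← mul_pow]; norm_num
    nlinarith
  · intro n
    show ((pn x n : ℚ) : ℝ) ≤ v
    rw [hpn]
    push_cast
    have h1 := Int.floor_le (2 ^ n * v)
    rw [div_le_iff₀ (by positivity)]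
    linarith

/-- For `x ∈ DD` with `π x > 0` the one-step estimate holds eventually. -/
lemma eventually_step (x : DD) (hx : 0 < piL x) :
    ∀ᶠ n : ℕ in atTop, ‖En W x (n + 1) - En W x n‖ ≤ (1 / 4) ^ (n + 1) := by
  obtain ⟨M, hM, hxM⟩ := x.2
  have h1 : ∀ᶠ n : ℕ in atTop, piL x / 2 < ((pn x n : ℚ) : ℝ) :=
    (tendsto_pn x).eventually_const_lt (by linarith)
  have h2 : ∀ᶠ n : ℕ in atTop, (M : ℝ) / (piL x / 2) ≤ (2 : ℝ) ^ n :=
    (tendsto_pow_atTop_atTop_of_one_lt (by norm_num)).eventually_ge_atTop _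
  filter_upwards [h1, h2, eventually_ge_atTop M] with n hn1 hn2 hnM
  apply En_step
  · intro m _
    obtain ⟨k, hk⟩ := (hxM m).1
    obtain ⟨d, hd⟩ := Nat.dvd_factorial hM hnM
    refine ⟨d * k, ?_⟩
    rw [hd]
    push_cast
    rw [← hk]; ring
  · intro m
    have h3 : (M : ℚ) ≤ n := by exact_mod_cast hnM
    exact (hxM m).2.trans (by linarith)
  · have h3 : (M : ℝ) ≤ 2 ^ n * ((pn x n : ℚ) : ℝ) := by
      rw [div_le_iff₀ (by linarith)] at hn2
      have : (2 : ℝ) ^ n * (piL x / 2) ≤ 2 ^ n * ((pn x n : ℚ) : ℝ) :=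
        mul_le_mul_of_nonneg_left hn1.le (by positivity)
      linarith
    have h4 : (M : ℚ) ≤ 2 ^ n * pn x n := by exact_mod_cast h3
    exact (hxM (n + 1)).2.trans h4

lemma eventually_pos (x : DD) (hx : 0 < piL x) : ∀ᶠ n : ℕ in atTop, 0 ≤ pn x n := by
  have h1 : ∀ᶠ n : ℕ in atTop, 0 < ((pn x n : ℚ) : ℝ) :=
    (tendsto_pn x).eventually_const_lt hx
  filter_upwards [h1] with n hn
  have : 0 < pn x n := by exact_mod_cast hn
  exact this.le

lemma exists_lim (x : DD) (hx : 0 < piL x) : ∃ l : AA W, Tendsto (En W x) atTop (𝓝 l) := by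
  obtain ⟨n0, hn0⟩ := eventually_atTop.mp (eventually_step W x hx)
  have hc : CauchySeq fun n => En W x (n + n0) := by
    apply cauchySeq_of_le_geometric (1 / 4) (1 / 4) (by norm_num)
    intro n
    rw [dist_comm, dist_eq_norm]
    have := hn0 (n + n0) (by omega)
    have e : n + 1 + n0 = n + n0 + 1 := by omega
    rw [e]
    refine this.trans ?_
    rw [pow_succ, mul_comm]
    apply mul_le_mul_of_nonneg_left _ (by norm_num)
    apply pow_le_pow_of_le_one (by norm_num) (by norm_num) (by omega)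
  obtain ⟨l, hl⟩ := cauchySeq_tendsto_of_complete hc
  exact ⟨l, (tendsto_add_atTop_iff_nat n0).mp hl⟩

/-- The limit homomorphism `θ`. -/
noncomputable def theta (x : DD) : AA W := limUnder atTop (En W x)

lemma tendsto_theta (x : DD) (hx : 0 < piL x) : Tendsto (En W x) atTop (𝓝 (theta W x)) :=
  tendsto_nhds_limUnder (exists_lim W x hx)

lemma pn_add (x y : ℕ → ℚ) (n : ℕ) : pn (x + y) n = pn x n + pn y n := by
  unfold pn
  rw [← Finset.sum_add_distrib]
  apply Finset.sum_congr rfl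
  intro m _
  rw [Pi.add_apply, add_div]

lemma Kn_add (x y : ℕ → ℚ) (n : ℕ) : Kn W (x + y) n = Kn W x n + Kn W y n := by
  induction n with
  | zero => simp [Kn]
  | succ n ih =>
    show Kn W (x + y) n + (((x + y) (n + 1) : ℚ) : ℂ) • kap W n (st W n) = _ + _
    show Kn W (x + y) n + (((x + y) (n + 1) : ℚ) : ℂ) • kap W n (st W n)
      = (Kn W x n + (x (n + 1) : ℂ) • kap W n (st W n))
        + (Kn W y n + (y (n + 1) : ℂ) • kap W n (st W n))
    rw [ih, Pi.add_apply]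
    push_cast
    rw [add_smul]
    abel

lemma En_add (x y : ℕ → ℚ) (n : ℕ) (hx : 0 ≤ pn x n) (hy : 0 ≤ pn y n) :
    En W (x + y) n = En W x n * En W y n := by
  unfold En
  have hc := (cc_pos n).le
  rw [← E_add W (mul_nonneg hc hx) (mul_nonneg hc hy), pn_add, Kn_add]
  congr 1
  · ring
  · push_cast
    rw [add_smul]
    abel

lemma theta_add (x y : DD) (hx : 0 < piL x) (hy : 0 < piL y) :
    theta W (x + y) = theta W x * theta W y := by
  have hxy : 0 < piL (x + y) := by rw [map_add]; linarith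
  have h1 := tendsto_theta W (x + y) hxy
  have h2 := (tendsto_theta W x hx).mul (tendsto_theta W y hy)
  apply tendsto_nhds_unique h1
  refine h2.congr' ?_
  filter_upwards [eventually_pos x hx, eventually_pos y hy] with n hn1 hn2
  exact (En_add W x y n hn1 hn2).symm

/-- The sequence `(1, 0, 0, …)`. -/
def e0 : DD := ⟨fun n => if n = 0 then 1 else 0, 1, one_pos, fun n => by
  by_cases h : n = 0
  · exact ⟨⟨1, by simp [h]⟩, by simp [h]⟩
  · exact ⟨⟨0, by simp [h]⟩, by simp [h]⟩⟩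

lemma pn_e0 (n : ℕ) : pn e0 n = 1 := by
  induction n with
  | zero => simp [pn, e0]
  | succ n ih => rw [pn_succ, ih]; simp [e0]

lemma piL_e0 : piL e0 = 1 := by
  apply tendsto_nhds_unique (tendsto_pn e0)
  simp only [pn_e0]
  simp

lemma theta_e0_ne_zero : theta W e0 ≠ 0 := by
  have hstep : ∀ n, ‖En W e0 (n + 1) - En W e0 n‖ ≤ (1 / 4) ^ (n + 1) := by
    intro n
    apply En_step
    · intro m _
      by_cases h : m = 0
      · exact ⟨n.factorial, by simp [e0, h]⟩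
      · exact ⟨0, by simp [e0, h]⟩
    · intro m
      have hn : (0 : ℚ) ≤ n := by positivity
      by_cases h : m = 0
      · simp [e0, h]
      · simp [e0, h]; linarith
    · rw [pn_e0]
      simp [e0]
  have hdist : ∀ n, ‖En W e0 n - En W e0 0‖ ≤ 1 / 3 * (1 - (1 / 4) ^ n) := by
    intro n
    induction n with
    | zero => simp
    | succ n ih =>
      have := hstep n
      have e : En W e0 (n + 1) - En W e0 0
          = (En W e0 (n + 1) - En W e0 n) + (En W e0 n - En W e0 0) := by abel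
      rw [e]
      refine (norm_add_le _ _).trans ?_
      have e2 : ((1 / 4 : ℝ)) ^ (n + 1) = (1 / 4) ^ n * (1 / 4) := pow_succ _ _
      rw [e2] at this ⊢
      linarith
  have h0 : ‖En W e0 0‖ = W.w (1 / 2 : ℚ).toNNRat := by
    unfold En
    rw [pn_e0]
    have : E W (cc 0 * 1) (((1 : ℚ) : ℂ) • (st W 0).1 + Kn W e0 0) = dl W (1 / 2 : ℚ).toNNRat := by
      unfold E
      have h1 : cc 0 * 1 = 1 / 2 := by simp [cc]
      have h2 : ((1 : ℚ) : ℂ) • (st W 0).1 + Kn W e0 0 = 0 := by simp [st, Kn]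
      rw [h1, h2, ex_zero, mul_one]
    rw [this, norm_dl]
  have h1 : 1 ≤ ‖En W e0 0‖ := by
    rw [h0]
    apply W.one_le
    rw [Rat.toNNRat_lt_iff_lt_coe (by norm_num)]
    norm_num
  intro hzero
  have hlim := tendsto_theta W e0 (by rw [piL_e0]; exact one_pos)
  rw [hzero] at hlim
  have h2 : Tendsto (fun n => ‖En W e0 n - En W e0 0‖) atTop (𝓝 ‖(0 : AA W) - En W e0 0‖) :=
    (hlim.sub_const _).norm
  have h3 : ‖(0 : AA W) - En W e0 0‖ ≤ 1 / 3 := by
    apply le_of_tendsto' h2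
    intro n
    refine (hdist n).trans ?_
    have : (0 : ℝ) ≤ (1 / 4) ^ n := by positivity
    linarith
  rw [zero_sub, norm_neg] at h3
  linarith

/-- The constant coefficient of `θ x` vanishes when `π x > 0`. -/
lemma cf_theta (x : DD) (hx : 0 < piL x) : cf W 0 (theta W x) = 0 := by
  have h1 := ((cf W 0).continuous.tendsto _).comp (tendsto_theta W x hx)
  apply tendsto_nhds_unique h1
  apply tendsto_const_nhds.congr'
  have h2 : ∀ᶠ n : ℕ in atTop, 0 < ((pn x n : ℚ) : ℝ) :=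
    (tendsto_pn x).eventually_const_lt hx
  filter_upwards [h2] with n hn
  have hn' : 0 < pn x n := by exact_mod_cast hn
  show 0 = cf W 0 (En W x n)
  unfold En E
  rw [cf_zero_mul]
  have h3 : cf W 0 (dl W (cc n * pn x n).toNNRat) = 0 := by
    unfold dl
    rw [cf_coe, cf0_mon, if_pos one_pos, if_neg]
    rw [Rat.toNNRat_eq_zero]
    have := mul_pos (cc_pos n) hn'
    exact not_le.mpr this
  rw [h3, zero_mul]

/-- Existence of a nonzero real semigroup in the radical of `AA W`. -/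
theorem exists_real_semigroup : ∃ a : ℝ → AA W,
    (∀ s t : ℝ, 0 < s → 0 < t → a (s + t) = a s * a t) ∧
    (∀ t, 0 < t → cf W 0 (a t) = 0) ∧ (∃ t : ℝ, 0 < t ∧ a t ≠ 0) := by
  obtain ⟨h, hh⟩ := LinearMap.exists_rightInverse_of_surjective piL
    (LinearMap.range_eq_top.mpr piL_surjective)
  have hh' : ∀ t, piL (h t) = t := fun t => by
    have := congrArg (fun f => f t) hh
    exact this
  refine ⟨fun t => theta W (h t), ?_, ?_, ?_⟩
  · intro s t hs ht
    show theta W (h (s + t)) = _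
    rw [map_add]
    exact theta_add W _ _ (by rw [hh']; exact hs) (by rw [hh']; exact ht)
  · intro t ht
    exact cf_theta W _ (by rw [hh']; exact ht)
  · refine ⟨1 / 2, by norm_num, ?_⟩
    intro hzero
    apply theta_e0_ne_zero W
    have h1 : e0 = h (1 / 2) + (e0 - h (1 / 2)) := by abel
    have h2 : 0 < piL (e0 - h (1 / 2)) := by
      rw [map_sub, piL_e0, hh']; norm_num
    have h3 : 0 < piL (h (1 / 2)) := by rw [hh']; norm_num
    rw [h1, theta_add W _ _ h3 h2]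
    show theta W (h (1 / 2)) * _ = 0
    have h4 : theta W (h (1 / 2)) = 0 := hzero
    rw [h4, zero_mul]

end Pool.Agent.MP3d411c
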