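import Mathlib
import Pool.Agent.MP3d411c.NoSemi
import Pool.Agent.MP3d411c.Semi

set_option autoImplicit false

namespace Pool.Agent.MP3d411c

/-- A criterion for the spectrum in the unitization to be trivial. -/
lemma spectrum_criterion (R : Type) [NonUnitalNormedCommRing R] [NormedSpace ℂ R]
    [IsScalarTower ℂ R R] [SMulCommClass ℂ R R] (x : R)
    (h : ∀ c : ℂ, c ≠ 0 → ∃ z : R, c • z - c⁻¹ • x - x * z = 0) :
    spectrum ℂ (Unitization.inr x : Unitization ℂ R) ⊆ {0} := by
  intro c hc
  by_contra hne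
  have hne' : c ≠ 0 := hne
  apply hc
  obtain ⟨z, hz⟩ := h c hne'
  have hprod : (algebraMap ℂ (Unitization ℂ R) c - Unitization.inr x) *
      (Unitization.inl c⁻¹ + Unitization.inr z) = 1 := by
    have h1 : algebraMap ℂ (Unitization ℂ R) c = Unitization.inl c := rfl
    rw [h1, sub_eq_add_neg, ← Unitization.inr_neg]
    ext
    · simp [hne']
    · simp only [Unitization.snd_mul, Unitization.fst_inl, Unitization.fst_inr,
        Unitization.snd_add, Unitization.snd_inl,
        Unitization.snd_inr, zero_add, Unitization.fst_add, add_zero, Unitization.snd_one]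
      rw [smul_neg, neg_mul, ← hz]
      abel
  exact IsUnit.of_mul_eq_one _ hprod

/-- The maximal ideal of `AA WW`, as a non-unital subalgebra: the radical Banach algebra of the
counterexample. -/
noncomputable def RR : NonUnitalSubalgebra ℂ (AA WW) where
  carrier := {x | cf WW 0 x = 0}
  add_mem' := by
    intro x y hx hy
    simp only [Set.mem_ofPred_eq] at *
    rw [map_add, hx, hy, add_zero]
  zero_mem' := map_zero _
  mul_mem' := by
    intro x y hx hy
    simp only [Set.mem_ofPred_eq] at *
    rw [cf_zero_mul, hx, zero_mul]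
  smul_mem' := by
    intro c x hx
    simp only [Set.mem_ofPred_eq] at *
    rw [map_smul, hx, smul_zero]

lemma mem_RR (x : AA WW) : x ∈ RR ↔ cf WW 0 x = 0 := Iff.rfl

lemma isClosed_RR : IsClosed (RR : Set (AA WW)) := by
  have : (RR : Set (AA WW)) = (cf WW 0) ⁻¹' {0} := by
    ext x
    exact mem_RR x
  rw [this]
  exact isClosed_singleton.preimage (cf WW 0).continuous

/-- The type of the counterexample. -/
def R0 : Type := RR

noncomputable instance : NonUnitalNormedCommRing R0 := inferInstanceAs (NonUnitalNormedCommRing RR)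

noncomputable instance : Module ℂ R0 := inferInstanceAs (Module ℂ RR)

/-- The inclusion of the radical algebra into `AA WW`. -/
def inc (x : R0) : AA WW := Subtype.val (show RR from x)

noncomputable instance : NormedSpace ℂ R0 where
  norm_smul_le c x := norm_smul_le c (inc x)

lemma inc_injective {x y : R0} (h : inc x = inc y) : x = y := Subtype.ext h

lemma inc_mem (x : R0) : cf WW 0 (inc x) = 0 := Subtype.property (show RR from x)

lemma exists_inc (x : AA WW) (hx : cf WW 0 x = 0) : ∃ y : R0, inc y = x := ⟨⟨x, hx⟩, rfl⟩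

lemma inc_mul (x y : R0) : inc (x * y) = inc x * inc y := rfl

lemma inc_sub (x y : R0) : inc (x - y) = inc x - inc y := rfl

lemma inc_zero : inc 0 = 0 := rfl

lemma inc_smul (c : ℂ) (x : R0) : inc (c • x) = c • inc x := rfl

lemma dist_inc (x y : R0) : dist x y = dist (inc x) (inc y) := rfl

instance : IsScalarTower ℂ R0 R0 := ⟨by
  intro c x y
  apply inc_injective
  show inc ((c • x) * y) = inc (c • (x * y))
  rw [inc_mul, inc_smul, inc_smul, inc_mul, smul_mul_assoc]⟩

instance : SMulCommClass ℂ R0 R0 := ⟨by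
  intro c x y
  apply inc_injective
  show inc (c • (x * y)) = inc (x * (c • y))
  rw [inc_mul, inc_smul, inc_smul, inc_mul, mul_smul_comm]⟩

instance : CompleteSpace R0 := isClosed_RR.completeSpace_coe

lemma continuous_inc : Continuous inc := by
  apply Isometry.continuous
  apply Isometry.of_dist_eq
  intro x y
  exact (dist_inc x y).symm

lemma quasi_R0 (x : R0) (c : ℂ) (hne' : c ≠ 0) :
    ∃ z : R0, c • z - c⁻¹ • x - x * z = 0 := by
  -- the inverse of `c - x` in `AA WW`
  have hu : IsUnit (algebraMap ℂ (AA WW) c - inc x) := by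
    apply isUnit_of_cf_ne_zero
    rw [map_sub, inc_mem, sub_zero, Algebra.algebraMap_eq_smul_one, map_smul,
      cf_zero_one, smul_eq_mul, mul_one]
    exact hne'
  obtain ⟨y, hy⟩ := hu.exists_right_inv
  have hcy : cf WW 0 y = c⁻¹ := by
    have h := congrArg (cf WW 0) hy
    rw [cf_zero_mul, cf_zero_one, map_sub, inc_mem, sub_zero,
      Algebra.algebraMap_eq_smul_one, map_smul, cf_zero_one, smul_eq_mul, mul_one] at h
    field_simp
    rw [mul_comm]; exact h
  -- split `y` into its scalar part and its radical part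
  obtain ⟨z, hz⟩ := exists_inc (y - algebraMap ℂ (AA WW) c⁻¹) (by
    rw [map_sub, hcy, Algebra.algebraMap_eq_smul_one, map_smul, cf_zero_one, smul_eq_mul,
      mul_one, sub_self])
  refine ⟨z, ?_⟩
  apply inc_injective
  rw [inc_sub, inc_sub, inc_smul, inc_smul, inc_mul, hz, inc_zero]
  have h4 : algebraMap ℂ (AA WW) c * algebraMap ℂ (AA WW) c⁻¹ = 1 := by
    rw [← map_mul, mul_inv_cancel₀ hne', map_one]
  rw [Algebra.smul_def, Algebra.smul_def]
  calc algebraMap ℂ (AA WW) c * (y - algebraMap ℂ (AA WW) c⁻¹)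
        - algebraMap ℂ (AA WW) c⁻¹ * inc x
        - inc x * (y - algebraMap ℂ (AA WW) c⁻¹)
      = (algebraMap ℂ (AA WW) c - inc x) * y
        - algebraMap ℂ (AA WW) c * algebraMap ℂ (AA WW) c⁻¹ := by ring
    _ = 0 := by rw [hy, h4, sub_self]

lemma spectrum_R0 (x : R0) : spectrum ℂ (Unitization.inr x : Unitization ℂ R0) ⊆ {0} :=
  spectrum_criterion R0 x (fun c hc => quasi_R0 x c hc)

lemma exists_semigroup_R0 : ∃ a : ℝ → R0, (∀ s t : ℝ, 0 < s → 0 < t → a (s + t) = a s * a t) ∧
    ∃ t : ℝ, 0 < t ∧ a t ≠ 0 := by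
  obtain ⟨a, ha, harad, t0, ht0, hat0⟩ := exists_real_semigroup WW
  have hex : ∀ t : ℝ, ∃ y : R0, 0 < t → inc y = a t := by
    intro t
    by_cases ht : 0 < t
    · obtain ⟨y, hy⟩ := exists_inc (a t) (harad t ht)
      exact ⟨y, fun _ => hy⟩
    · exact ⟨0, fun h => absurd h ht⟩
  choose a' ha' using hex
  refine ⟨a', ?_, t0, ht0, ?_⟩
  · intro s t hs ht
    apply inc_injective
    rw [inc_mul, ha' _ hs, ha' _ ht, ha' _ (by linarith), ha s t hs ht]
  · intro h
    apply hat0
    rw [← ha' t0 ht0, h, inc_zero]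

lemma no_continuous_R0 (b : ℝ → R0) (hb : ∀ s t : ℝ, 0 < s → 0 < t → b (s + t) = b s * b t)
    (hcont : ContinuousOn b (Set.Ioi 0)) (t1 : ℝ) (ht1 : 0 < t1) : b t1 = 0 := by
  apply inc_injective
  rw [inc_zero]
  -- bounded on `[t1/4, t1]`
  have hK : IsCompact (Set.Icc (t1 / 4) t1) := isCompact_Icc
  have hcont' : ContinuousOn (fun t => ‖inc (b t)‖) (Set.Icc (t1 / 4) t1) := by
    apply ContinuousOn.norm
    apply continuous_inc.comp_continuousOn
    apply hcont.mono
    intro t ht
    have := ht.1
    show 0 < t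
    linarith
  obtain ⟨C, hC⟩ := hK.bddAbove_image hcont'
  have hvan := semigroup_vanish (fun t => inc (b t))
    (by
      intro s t hs ht
      show inc (b (s + t)) = _
      rw [hb s t hs ht]
      rfl)
    (fun t _ => inc_mem (b t)) (t1 / 4) (by linarith) C
    (by
      intro t h1 h2
      apply hC
      exact ⟨t, ⟨h1, by linarith⟩, rfl⟩)
  have e : 4 * (t1 / 4) = t1 := by ring
  rw [e] at hvan
  exact hvan

end Pool.Agent.MP3d411c
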